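import Pool.Agent.Lib.MP_4eed4e_an_PA.Df

/-!
# Project P, block A: Parseval frames and Hilbert-Schmidt operators
-/

open scoped InnerProductSpace

namespace Pool.Agent.MP4eed4eP.PA

variable {L : Type*} [NormedAddCommGroup L] [InnerProductSpace ℝ L] [CompleteSpace L]

omit [CompleteSpace L] in
/-- Polarised Parseval identity.
Proof: `4 a b = (a + b)^2 - (a - b)^2`, `<s_m, f + g> = <s_m, f> + <s_m, g>`, and
`|f + g|^2 - |f - g|^2 = 4 <f, g>`; subtract the two `HasSum`s. -/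
theorem Pars.hasSum_inner {ι : Type*} {s : ι → L} (hs : Pars s) (f g : L) :
    HasSum (fun m => ⟪s m, f⟫_ℝ * ⟪s m, g⟫_ℝ) ⟪f, g⟫_ℝ := by
  have h := ((hs (f + g)).sub (hs (f - g))).mul_left (1 / 4)
  have e1 : 1 / 4 * (‖f + g‖ ^ 2 - ‖f - g‖ ^ 2) = ⟪f, g⟫_ℝ := by
    rw [norm_add_sq_real, norm_sub_sq_real]
    ring
  rw [e1] at h
  refine h.congr_fun fun m => ?_
  rw [inner_add_right, inner_sub_right]
  ring

/-- A complete orthonormal system is a Parseval frame.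
Proof (`L` complete): `HilbertBasis.mkOfOrthogonalEqBot hon _` (an element orthogonal to the
span is orthogonal to all `v k`, so zero) and `HilbertBasis.hasSum_inner_mul_inner b f f`,
`real_inner_self_eq_norm_sq`, `real_inner_comm`. -/
theorem pars_of_cpl {κ : Type*} {v : κ → L} (hon : Orthonormal ℝ v)
    (hc : ∀ f, (∀ k, ⟪v k, f⟫_ℝ = 0) → f = 0) : Pars v := by
  have hsp : (Submodule.span ℝ (Set.range v))ᗮ = ⊥ := by
    rw [Submodule.eq_bot_iff]
    intro f hf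
    refine hc f fun k => ?_
    exact (Submodule.mem_orthogonal _ _).1 hf (v k) (Submodule.subset_span ⟨k, rfl⟩)
  intro f
  have h := (HilbertBasis.mkOfOrthogonalEqBot hon hsp).hasSum_inner_mul_inner f f
  rw [real_inner_self_eq_norm_sq] at h
  refine h.congr_fun fun k => ?_
  rw [HilbertBasis.coe_mkOfOrthogonalEqBot, real_inner_comm f (v k), sq]

/-- Exchange of the frame and of the operator with its adjoint.
Proof: in `ENNReal` (all terms nonnegative; `ENNReal.ofReal`, Tonelli `ENNReal.tsum_comm`):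
`sum_m |T s_m|^2 = sum_m sum_n <s'_n, T s_m>^2 = sum_n sum_m <s_m, T* s'_n>^2
= sum_n |T* s'_n|^2`.  The left side is finite by `hT`, so the right side is summable with the
same sum.  (Alternative with real sums: `summable_prod_of_nonneg`, `HasSum.prod_fiberwise`.) -/
theorem hs_adjoint {ι ι' : Type*} {s : ι → L} {s' : ι' → L} (hs : Pars s) (hs' : Pars s')
    (T : L →L[ℝ] L) (hT : Summable fun m => ‖T (s m)‖ ^ 2) :
    HasSum (fun n => ‖ContinuousLinearMap.adjoint T (s' n)‖ ^ 2) (∑' m, ‖T (s m)‖ ^ 2) := by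
  have h1 : ∀ m, HasSum (fun n => ⟪s' n, T (s m)⟫_ℝ ^ 2) (‖T (s m)‖ ^ 2) :=
    fun m => hs' (T (s m))
  have h2 : ∀ n, HasSum (fun m => ⟪s' n, T (s m)⟫_ℝ ^ 2)
      (‖ContinuousLinearMap.adjoint T (s' n)‖ ^ 2) := by
    intro n
    refine (hs (ContinuousLinearMap.adjoint T (s' n))).congr_fun fun m => ?_
    rw [ContinuousLinearMap.adjoint_inner_right, real_inner_comm]
  have h3 : Summable fun p : ι × ι' => ⟪s' p.2, T (s p.1)⟫_ℝ ^ 2 := by
    rw [summable_prod_of_nonneg (fun p => sq_nonneg _)]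
    refine ⟨fun m => (h1 m).summable, ?_⟩
    refine hT.congr fun m => ?_
    exact (h1 m).tsum_eq.symm
  have h4 := h3.hasSum
  have h5 := h4.prod_fiberwise h1
  rw [← h5.tsum_eq] at h4
  have h6 := ((Equiv.prodComm ι' ι).hasSum_iff.2 h4).prod_fiberwise (g := fun n =>
    ‖ContinuousLinearMap.adjoint T (s' n)‖ ^ 2) fun n => h2 n
  exact h6

/-- The Hilbert-Schmidt sum does not depend on the frame.
Proof: `hs_adjoint` twice, `T** = T`. -/
theorem hs_frame {ι ι' : Type*} {s : ι → L} {s' : ι' → L} (hs : Pars s) (hs' : Pars s')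
    (T : L →L[ℝ] L) (hT : Summable fun m => ‖T (s m)‖ ^ 2) :
    HasSum (fun n => ‖T (s' n)‖ ^ 2) (∑' m, ‖T (s m)‖ ^ 2) := by
  have h1 := hs_adjoint hs hs' T hT
  have h2 := hs_adjoint hs' hs' (ContinuousLinearMap.adjoint T) h1.summable
  rw [ContinuousLinearMap.adjoint_adjoint, h1.tsum_eq] at h2
  exact h2

/-- Right multiplication by a bounded operator.
Proof: `T B = (B* T*)*`; by `hs_adjoint`, `|T* s_m|^2` is summable with sum
`sum |T s_m|^2`; `|B* T* s_m|^2 <= |B|^2 |T* s_m|^2` is summable, and `hs_adjoint` for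
`B* T*`, whose adjoint is `T B`. -/
theorem hs_comp_right {ι : Type*} {s : ι → L} (hs : Pars s) (T B : L →L[ℝ] L)
    (hT : Summable fun m => ‖T (s m)‖ ^ 2) :
    (Summable fun m => ‖T (B (s m))‖ ^ 2) ∧
      ∑' m, ‖T (B (s m))‖ ^ 2 ≤ ‖B‖ ^ 2 * ∑' m, ‖T (s m)‖ ^ 2 := by
  have h1 := hs_adjoint hs hs T hT
  have hle : ∀ m, ‖(ContinuousLinearMap.adjoint B ∘L ContinuousLinearMap.adjoint T) (s m)‖ ^ 2 ≤
      ‖B‖ ^ 2 * ‖ContinuousLinearMap.adjoint T (s m)‖ ^ 2 := by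
    intro m
    rw [← mul_pow]
    refine pow_le_pow_left₀ (norm_nonneg _) ?_ 2
    have h2 := (ContinuousLinearMap.adjoint B).le_opNorm (ContinuousLinearMap.adjoint T (s m))
    rwa [LinearIsometryEquiv.norm_map] at h2
  have hsum := Summable.of_nonneg_of_le (fun m => sq_nonneg _) hle (h1.summable.mul_left _)
  have h2 := hs_adjoint hs hs
    (ContinuousLinearMap.adjoint B ∘L ContinuousLinearMap.adjoint T) hsum
  rw [ContinuousLinearMap.adjoint_comp, ContinuousLinearMap.adjoint_adjoint,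
    ContinuousLinearMap.adjoint_adjoint] at h2
  refine ⟨h2.summable, ?_⟩
  have h3 := h2.tsum_eq
  have h4 := hsum.tsum_le_tsum hle (h1.summable.mul_left _)
  rw [tsum_mul_left, h1.tsum_eq] at h4
  exact h3.le.trans h4

omit [CompleteSpace L] in
/-- Left multiplication by a bounded operator: `|B T s_m| <= |B| |T s_m|`. -/
theorem hs_comp_left {ι : Type*} {s : ι → L} (T B : L →L[ℝ] L)
    (hT : Summable fun m => ‖T (s m)‖ ^ 2) :
    (Summable fun m => ‖B (T (s m))‖ ^ 2) ∧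
      ∑' m, ‖B (T (s m))‖ ^ 2 ≤ ‖B‖ ^ 2 * ∑' m, ‖T (s m)‖ ^ 2 := by
  have hle : ∀ m, ‖B (T (s m))‖ ^ 2 ≤ ‖B‖ ^ 2 * ‖T (s m)‖ ^ 2 := by
    intro m
    rw [← mul_pow]
    exact pow_le_pow_left₀ (norm_nonneg _) (B.le_opNorm _) 2
  have hsum := Summable.of_nonneg_of_le (fun m => sq_nonneg _) hle (hT.mul_left _)
  refine ⟨hsum, ?_⟩
  have h4 := hsum.tsum_le_tsum hle (hT.mul_left _)
  rwa [tsum_mul_left] at h4

omit [CompleteSpace L] in
/-- Powers: `S ^ a = S ^ (a - 1) S`, `hs_comp_left`. -/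
theorem hs_pow {ι : Type*} {s : ι → L} (S : L →L[ℝ] L)
    (hS : Summable fun m => ‖S (s m)‖ ^ 2) {a : ℕ} (ha : 1 ≤ a) :
    Summable fun m => ‖(S ^ a) (s m)‖ ^ 2 := by
  obtain ⟨b, rfl⟩ : ∃ b, a = b + 1 := ⟨a - 1, by omega⟩
  rw [pow_succ]
  exact (hs_comp_left S (S ^ b) hS).1

end Pool.Agent.MP4eed4eP.PA
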