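import Pool.Agent.Lib.MP_4eed4e_an_PA.Par

/-!
# Project P, block A: Hilbert-Schmidt operators are compact; eigenvectors of a compact operator
-/

open scoped InnerProductSpace Topology
open Filter

namespace Pool.Agent.MP4eed4eP.PA

variable {L : Type*} [NormedAddCommGroup L] [InnerProductSpace ℝ L] [CompleteSpace L]

/-- the finite rank approximation -/
private noncomputable def cptT {ι : Type*} (s : ι → L) (T : L →L[ℝ] L) (t : Finset ι) :
    L →L[ℝ] L :=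
  ∑ m ∈ t, (innerSL ℝ (s m)).smulRight (T (s m))

omit [CompleteSpace L] in
private theorem cptT_apply {ι : Type*} (s : ι → L) (T : L →L[ℝ] L) (t : Finset ι) (f : L) :
    cptT s T t f = ∑ m ∈ t, ⟪s m, f⟫_ℝ • T (s m) := by
  rw [cptT, sum_apply]
  rfl

omit [CompleteSpace L] in
private theorem cptT_compact {ι : Type*} (s : ι → L) (T : L →L[ℝ] L) (t : Finset ι) :
    IsCompactOperator (cptT s T t) := by
  classical
  induction t using Finset.induction_on with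
  | empty =>
    have h : ((cptT s T ∅ : L →L[ℝ] L) : L → L) = 0 := by
      funext f
      rw [cptT_apply, Finset.sum_empty]
      rfl
    rw [h]
    exact isCompactOperator_zero
  | insert a t ha ih =>
    have h1 : IsCompactOperator (innerSL ℝ (s a) : L →L[ℝ] ℝ) :=
      isCompactOperator_of_locallyCompactSpace_dom _
    have h2 : IsCompactOperator fun f : L => ⟪s a, f⟫_ℝ • T (s a) :=
      h1.continuous_comp (g := fun c : ℝ => c • T (s a)) (continuous_id.smul continuous_const)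
    have h : ((cptT s T (insert a t) : L →L[ℝ] L) : L → L) =
        (fun f : L => ⟪s a, f⟫_ℝ • T (s a)) + (cptT s T t : L → L) := by
      funext f
      rw [Pi.add_apply, cptT_apply, cptT_apply, Finset.sum_insert ha]
    rw [h]
    exact h2.add ih

private theorem cpt_bound {ι : Type*} {s : ι → L} (hs : Pars s) (T : L →L[ℝ] L)
    (hT : Summable fun m => ‖T (s m)‖ ^ 2) (t : Finset ι) (f g : L) :
    ⟪T f - cptT s T t f, g⟫_ℝ ≤
      ‖f‖ * (Real.sqrt (∑' m, ‖T (s m)‖ ^ 2 - ∑ m ∈ t, ‖T (s m)‖ ^ 2) * ‖g‖) := by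
  classical
  have h1 : HasSum (fun m => ⟪s m, f⟫_ℝ * ⟪T (s m), g⟫_ℝ) ⟪T f, g⟫_ℝ := by
    have h := hs.hasSum_inner f (ContinuousLinearMap.adjoint T g)
    rw [ContinuousLinearMap.adjoint_inner_right] at h
    refine h.congr_fun ?_
    intro m
    rw [ContinuousLinearMap.adjoint_inner_right]
  have h2 : ⟪cptT s T t f, g⟫_ℝ = ∑ m ∈ t, ⟪s m, f⟫_ℝ * ⟪T (s m), g⟫_ℝ := by
    rw [cptT_apply, sum_inner]
    exact Finset.sum_congr rfl fun m _ => real_inner_smul_left _ _ _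
  rw [inner_sub_left, h2]
  have h3 : Tendsto (fun u : Finset ι => ∑ m ∈ u, ⟪s m, f⟫_ℝ * ⟪T (s m), g⟫_ℝ -
      ∑ m ∈ t, ⟪s m, f⟫_ℝ * ⟪T (s m), g⟫_ℝ) atTop
      (𝓝 (⟪T f, g⟫_ℝ - ∑ m ∈ t, ⟪s m, f⟫_ℝ * ⟪T (s m), g⟫_ℝ)) :=
    Tendsto.sub_const h1 _
  refine le_of_tendsto h3 ?_
  filter_upwards [eventually_ge_atTop t] with u hu
  have hu' : t ⊆ u := hu
  rw [← Finset.sum_sdiff hu', add_sub_cancel_right]
  refine (Real.sum_mul_le_sqrt_mul_sqrt _ _ _).trans ?_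
  have h4 : ∑ m ∈ u \ t, ⟪s m, f⟫_ℝ ^ 2 ≤ ‖f‖ ^ 2 :=
    sum_le_hasSum _ (fun _ _ => sq_nonneg _) (hs f)
  have h5 : ∑ m ∈ u \ t, ⟪T (s m), g⟫_ℝ ^ 2 ≤
      (∑' m, ‖T (s m)‖ ^ 2 - ∑ m ∈ t, ‖T (s m)‖ ^ 2) * ‖g‖ ^ 2 := by
    have h6 : ∑ m ∈ u \ t, ‖T (s m)‖ ^ 2 ≤ ∑' m, ‖T (s m)‖ ^ 2 - ∑ m ∈ t, ‖T (s m)‖ ^ 2 := by
      have h7 : ∑ m ∈ u, ‖T (s m)‖ ^ 2 ≤ ∑' m, ‖T (s m)‖ ^ 2 :=
        hT.sum_le_tsum _ fun _ _ => sq_nonneg _
      rw [← Finset.sum_sdiff hu'] at h7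
      linarith
    refine le_trans ?_ (mul_le_mul_of_nonneg_right h6 (sq_nonneg _))
    rw [Finset.sum_mul]
    refine Finset.sum_le_sum fun m _ => ?_
    rw [← mul_pow]
    refine sq_le_sq' ?_ ?_
    · have := neg_le_of_abs_le (abs_real_inner_le_norm (T (s m)) g)
      linarith
    · exact real_inner_le_norm _ _
  refine mul_le_mul ?_ ?_ (Real.sqrt_nonneg _) (norm_nonneg _)
  · exact (Real.sqrt_le_sqrt h4).trans_eq (Real.sqrt_sq (norm_nonneg _))
  · refine (Real.sqrt_le_sqrt h5).trans_eq ?_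
    rw [Real.sqrt_mul' _ (sq_nonneg _), Real.sqrt_sq (norm_nonneg _)]

private theorem cpt_norm {ι : Type*} {s : ι → L} (hs : Pars s) (T : L →L[ℝ] L)
    (hT : Summable fun m => ‖T (s m)‖ ^ 2) (t : Finset ι) :
    ‖T - cptT s T t‖ ≤ Real.sqrt (∑' m, ‖T (s m)‖ ^ 2 - ∑ m ∈ t, ‖T (s m)‖ ^ 2) := by
  refine ContinuousLinearMap.opNorm_le_bound _ (Real.sqrt_nonneg _) fun f => ?_
  rw [sub_apply]
  have h := cpt_bound hs T hT t f (T f - cptT s T t f)
  rw [real_inner_self_eq_norm_mul_norm] at h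
  by_cases h0 : ‖T f - cptT s T t f‖ = 0
  · rw [h0]
    exact mul_nonneg (Real.sqrt_nonneg _) (norm_nonneg _)
  · have h1 : 0 < ‖T f - cptT s T t f‖ := lt_of_le_of_ne (norm_nonneg _) (Ne.symm h0)
    refine le_of_mul_le_mul_right ?_ h1
    linarith

/-- A Hilbert-Schmidt operator is compact.
Proof.  For a finite set `t` of indices let `T_t f = sum_{m in t} <s_m, f> T s_m`, a finite rank
operator, so compact (range in a finite dimensional space; a finite sum of operators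
`f ↦ <s_m, f> • y`, each compact as composition through `ℝ`).  For all `f, g`:
`<T f, g> = <f, T* g> = sum_m <s_m, f> <s_m, T* g> = sum_m <s_m, f> <T s_m, g>`
(`Pars.hasSum_inner`), so `<T f - T_t f, g> = sum_{m notin t} <s_m, f> <T s_m, g>`, and by
Cauchy-Schwarz `|.|^2 <= (sum_m <s_m,f>^2) (sum_{m notin t} <T s_m, g>^2)
<= |f|^2 |g|^2 sum_{m notin t} |T s_m|^2`.  So
`‖T - T_t‖^2 <= sum_{m notin t} |T s_m|^2 -> 0` (`tendsto_tsum_compl_atTop_zero`), and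
`isCompactOperator_of_tendsto`. -/
theorem compact_of_hs {ι : Type*} {s : ι → L} (hs : Pars s) (T : L →L[ℝ] L)
    (hT : Summable fun m => ‖T (s m)‖ ^ 2) : IsCompactOperator T := by
  have h1 : Tendsto (fun t : Finset ι => Real.sqrt (∑' m, ‖T (s m)‖ ^ 2 -
      ∑ m ∈ t, ‖T (s m)‖ ^ 2)) atTop (𝓝 0) := by
    have h2 : Tendsto (fun t : Finset ι => ∑' m, ‖T (s m)‖ ^ 2 -
        ∑ m ∈ t, ‖T (s m)‖ ^ 2) atTop (𝓝 0) := by
      have h3 := Tendsto.const_sub (∑' m, ‖T (s m)‖ ^ 2) hT.hasSum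
      rwa [sub_self] at h3
    have h4 := (Real.continuous_sqrt.tendsto 0).comp h2
    rwa [Real.sqrt_zero] at h4
  have h5 : Tendsto (fun t : Finset ι => cptT s T t) atTop (𝓝 T) := by
    rw [tendsto_iff_norm_sub_tendsto_zero]
    refine squeeze_zero (fun _ => norm_nonneg _) (fun t => ?_) h1
    rw [norm_sub_rev]
    exact cpt_norm hs T hT t
  exact isCompactOperator_of_tendsto h5 (Eventually.of_forall fun t => cptT_compact s T t)

end Pool.Agent.MP4eed4eP.PA
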