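import Pool.Agent.Lib.MP_4eed4e_an_PA.Tan

/-!
# Project P, block A: the derivative of the traces (A6)
-/

open scoped InnerProductSpace

namespace Pool.Agent.MP4eed4eP.PA

variable {L : Type*} [NormedAddCommGroup L] [InnerProductSpace ℝ L] [CompleteSpace L]
  {E : Type*} [NormedAddCommGroup E] [NormedSpace ℝ E]

/-- summable powers -/
theorem Der_summable {κ : Type*} {mu : κ → ℝ} (hpos : ∀ k, 0 < mu k)
    (hsum : Summable fun k => mu k ^ 2) {n : ℕ} (hn : 2 ≤ n) : Summable fun k => mu k ^ n := by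
  obtain ⟨T, hT⟩ : ∃ T : ℝ, T = ∑' k, mu k ^ 2 := ⟨_, rfl⟩
  have hT0 : 0 ≤ T := by
    rw [hT]
    exact tsum_nonneg fun k => sq_nonneg _
  have hle : ∀ k, mu k ≤ T + 1 := by
    intro k
    have h1 : mu k ^ 2 ≤ T := by
      rw [hT]
      exact hsum.le_tsum k fun j _ => sq_nonneg _
    nlinarith [hpos k]
  obtain ⟨m, rfl⟩ : ∃ m, n = 2 + m := ⟨n - 2, by omega⟩
  refine Summable.of_nonneg_of_le (fun k => pow_nonneg (hpos k).le _) (fun k => ?_)
    (hsum.mul_right ((T + 1) ^ m))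
  rw [pow_add]
  exact mul_le_mul_of_nonneg_left (pow_le_pow_left₀ (hpos k).le (hle k) m) (sq_nonneg _)

/-- A6.  The derivative of the trace.
Proof.  Let `tau` be as in `exists_tau` (weights `mu_k^(2a-1)`).  By `trc_tangent` the function
`phi c = trc s (S c) a - trc s (S c₀) a - 2a tau (S c - S c₀)` is `>= 0` for `c` near `c₀` and
`phi c₀ = 0`: a local minimum, so its derivative at `c₀` vanishes (`IsLocalMin.fderiv_eq_zero`);
`phi` is differentiable at `c₀` with derivative `D f - 2a tau ∘ D S`. -/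
theorem fderiv_trc {ι κ : Type*} {s : ι → L} (hs : Pars s) {S : E → L →L[ℝ] L} {c₀ : E}
    {v : κ → L} {mu : κ → ℝ} (hE : Eig (S c₀) v mu) {a : ℕ} (ha : 2 ≤ a)
    (hN : ∀ᶠ c in nhds c₀, Nng (S c) ∧ Summable fun m => ‖S c (s m)‖ ^ 2)
    (hSd : DifferentiableAt ℝ S c₀) (hfd : DifferentiableAt ℝ (fun c => trc s (S c) a) c₀)
    (w : E) :
    HasSum (fun k => 2 * a * (mu k ^ (2 * a - 1) * ⟪v k, fderiv ℝ S c₀ w (v k)⟫_ℝ))
      (fderiv ℝ (fun c => trc s (S c) a) c₀ w) := by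
  have h0 := hN.self_of_nhds
  have hmu2 : Summable fun k => mu k ^ 2 := by
    have h1 := (hasSum_trc hs hE h0.2 (a := 1) le_rfl).summable
    simpa using h1
  have hw : Summable fun k => mu k ^ (2 * a - 1) := Der_summable hE.pos hmu2 (by omega)
  obtain ⟨tau, htau⟩ := exists_tau hE.on (fun k => pow_nonneg (hE.pos k).le (2 * a - 1)) hw
  have hmin : IsLocalMin (fun c => trc s (S c) a - 2 * a * tau (S c - S c₀)) c₀ := by
    filter_upwards [hN] with c hc
    have h1 := trc_tangent hs hE h0.2 hc.1 hc.2 ha htau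
    simp only [sub_self, map_zero, mul_zero, sub_zero]
    linarith
  have hd1 : HasFDerivAt (fun c => tau (S c - S c₀)) (tau.comp (fderiv ℝ S c₀)) c₀ :=
    tau.hasFDerivAt.comp c₀ (hSd.hasFDerivAt.sub_const (S c₀))
  have hd2 := hfd.hasFDerivAt.sub (hd1.const_mul (2 * a : ℝ))
  have h2 := hmin.hasFDerivAt_eq_zero hd2
  have h3 : fderiv ℝ (fun c => trc s (S c) a) c₀ w = 2 * a * tau (fderiv ℝ S c₀ w) := by
    have h4 := congrArg (fun T : E →L[ℝ] ℝ => T w) h2
    simp only [ContinuousLinearMap.sub_apply, ContinuousLinearMap.smul_apply,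
      ContinuousLinearMap.comp_apply, smul_eq_mul, ContinuousLinearMap.zero_apply] at h4
    linarith
  rw [h3]
  exact (htau (fderiv ℝ S c₀ w)).mul_left (2 * a : ℝ)

end Pool.Agent.MP4eed4eP.PA
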