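import Pool.Agent.Lib.MP_4eed4e_an_PA.Str

/-!
# Project P, block A: the derivative of `S` in terms of forms (end of A6)
-/

open scoped InnerProductSpace

namespace Pool.Agent.MP4eed4eP.PA

variable {H L : Type*} [NormedAddCommGroup H] [InnerProductSpace ℝ H] [CompleteSpace H]
  [NormedAddCommGroup L] [InnerProductSpace ℝ L] [CompleteSpace L]
  {E : Type*} [NormedAddCommGroup E] [NormedSpace ℝ E]

omit [CompleteSpace L] in
/-- `<R_a f, R_b f> = sum_j a_j b_j |chi_j f|^2`. -/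
private theorem Dsf_inner_RR {J : Type*} [Fintype J] {chi : J → L →L[ℝ] L} (hc : Cut chi)
    (a b : J → ℝ) (f : L) :
    ⟪RR chi a f, RR chi b f⟫_ℝ = ∑ j, a j * b j * ‖chi j f‖ ^ 2 := by
  have h1 : RR chi a f = ∑ j, a j • chi j f := by
    simp only [RR, sum_apply, smul_apply]
  rw [h1, sum_inner]
  refine Finset.sum_congr rfl fun j _ => ?_
  rw [real_inner_smul_left, ← hc.idem j f, hc.sym, hc.chi_RR, real_inner_smul_right, hc.idem,
    real_inner_self_eq_norm_sq]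
  ring

omit [CompleteSpace L] in
/-- The derivative of the inverse. -/
private theorem Dsf_inv {A : E → H →L[ℝ] H} {c₀ : E} (hA : DifferentiableAt ℝ A c₀)
    (hu : IsUnit (A c₀)) (w : E) :
    ∃ I' : E →L[ℝ] (H →L[ℝ] H), HasFDerivAt (fun c => Ring.inverse (A c)) I' c₀ ∧
      I' w = -(Ring.inverse (A c₀) * fderiv ℝ A c₀ w * Ring.inverse (A c₀)) := by
  obtain ⟨x, hx⟩ := hu
  have h1 := hasFDerivAt_ringInverse (𝕜 := ℝ) x
  rw [hx] at h1
  refine ⟨_, h1.comp c₀ hA.hasFDerivAt, ?_⟩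
  rw [← hx, Ring.inverse_unit]
  simp [ContinuousLinearMap.mulLeftRight_apply]

/-- The derivative of `S` applied to a vector. -/
private theorem Dsf_SS (io : H →L[ℝ] L) {A : E → H →L[ℝ] H} {R : E → L →L[ℝ] L} {c₀ : E}
    (hA : DifferentiableAt ℝ A c₀) (hR : DifferentiableAt ℝ R c₀) (hu : IsUnit (A c₀))
    (w : E) (v : L) :
    fderiv ℝ (fun c => SS io (A c) (R c)) c₀ w v =
      fderiv ℝ R c₀ w (io (Ring.inverse (A c₀) (ContinuousLinearMap.adjoint io (R c₀ v))))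
      - R c₀ (io (Ring.inverse (A c₀) (fderiv ℝ A c₀ w (Ring.inverse (A c₀)
        (ContinuousLinearMap.adjoint io (R c₀ v))))))
      + R c₀ (io (Ring.inverse (A c₀) (ContinuousLinearMap.adjoint io (fderiv ℝ R c₀ w v)))) := by
  obtain ⟨I', h1, h2⟩ := Dsf_inv hA hu w
  have h3 := hR.hasFDerivAt
  have h4 := (hasFDerivAt_const (ContinuousLinearMap.adjoint io) c₀).clm_comp h3
  have h5 := h1.clm_comp h4
  have h6 := (hasFDerivAt_const io c₀).clm_comp h5
  have h7 := h3.clm_comp h6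
  have h8 : (fun c => SS io (A c) (R c)) = fun c => (R c).comp (io.comp
      ((Ring.inverse (A c)).comp ((ContinuousLinearMap.adjoint io).comp (R c)))) := rfl
  rw [h8, h7.fderiv]
  simp [h2]
  abel

/-- The derivative of `S(c)` in the direction `w` applied to `v = R io g`, where
`A g = m⁻¹ io* R R io g`, in terms of forms.
Proof.  With dots for the derivatives in the direction `w` at `c₀` (`hasFDerivAt_RR`;
`D (Ring.inverse A) = - A⁻¹ Ȧ A⁻¹`, `hasFDerivAt_ringInverse`; product rule for compositions):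
`Ṡ v = Ṙ io A⁻¹ io* R v - R io A⁻¹ Ȧ A⁻¹ io* R v + R io A⁻¹ io* Ṙ v` and
`A⁻¹ io* R v = m g` (from the equation).  So, `R`, `Ṙ`, `A⁻¹` being symmetric,
`<v, Ṡ v> = m <R io g, Ṙ io g> - m^2 <g, Ȧ g> + m <io g, Ṙ R io g>`, and
`<R f, Ṙ f> = <f, Ṙ R f> = sum_j rho_j rhȯ_j |chi_j f|^2` (as in `Cut.norm_RR`),
`D (rho_j^2) = 2 rho_j rhȯ_j`. -/
theorem inner_fderiv_SS (io : H →L[ℝ] L) {J : Type*} [Fintype J] {chi : J → L →L[ℝ] L}
    (hc : Cut chi) {A : E → H →L[ℝ] H} {rho : J → E → ℝ} {c₀ : E}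
    (hA : DifferentiableAt ℝ A c₀) (hrho : ∀ j, DifferentiableAt ℝ (rho j) c₀)
    (hco : Coer (A c₀)) {g : H} {m : ℝ} (hm : m ≠ 0)
    (hg : A c₀ g = m⁻¹ • ContinuousLinearMap.adjoint io
      (RR chi (fun j => rho j c₀) (RR chi (fun j => rho j c₀) (io g)))) (w : E) :
    ⟪RR chi (fun j => rho j c₀) (io g),
      fderiv ℝ (fun c => SS io (A c) (RR chi (fun j => rho j c))) c₀ w
        (RR chi (fun j => rho j c₀) (io g))⟫_ℝ =
    m * ∑ j, fderiv ℝ (fun c => rho j c ^ 2) c₀ w * ‖chi j (io g)‖ ^ 2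
      - m ^ 2 * ⟪fderiv ℝ A c₀ w g, g⟫_ℝ := by
  obtain ⟨hR1, hR2⟩ := hasFDerivAt_RR chi hrho w
  have hS := Dsf_SS io hA hR1 hco.isUnit w (RR chi (fun j => rho j c₀) (io g))
  rw [hS, hR2]
  have h1 : ContinuousLinearMap.adjoint io (RR chi (fun j => rho j c₀)
      (RR chi (fun j => rho j c₀) (io g))) = m • A c₀ g := by
    rw [hg, smul_smul, mul_inv_cancel₀ hm, one_smul]
  have h2 : Ring.inverse (A c₀) (ContinuousLinearMap.adjoint io (RR chi (fun j => rho j c₀)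
      (RR chi (fun j => rho j c₀) (io g)))) = m • g := by
    rw [h1, map_smul, (hco.inv_apply g).1]
  rw [h2, inner_add_right, inner_sub_right]
  have h3 : ⟪RR chi (fun j => rho j c₀) (io g), RR chi (fun j => fderiv ℝ (rho j) c₀ w)
      (io (m • g))⟫_ℝ = m * ∑ j, rho j c₀ * fderiv ℝ (rho j) c₀ w * ‖chi j (io g)‖ ^ 2 := by
    rw [map_smul, map_smul, real_inner_smul_right, Dsf_inner_RR hc]
  have hfl : ∀ (x : H) (y : L), ⟪y, RR chi (fun j => rho j c₀) (io x)⟫_ℝ =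
      ⟪ContinuousLinearMap.adjoint io (RR chi (fun j => rho j c₀) y), x⟫_ℝ := by
    intro x y
    rw [ContinuousLinearMap.adjoint_inner_left, hc.RR_sym]
  have h4 : ⟪RR chi (fun j => rho j c₀) (io g), RR chi (fun j => rho j c₀)
      (io (Ring.inverse (A c₀) (fderiv ℝ A c₀ w (m • g))))⟫_ℝ =
        m ^ 2 * ⟪fderiv ℝ A c₀ w g, g⟫_ℝ := by
    rw [hfl, ← hco.inv_sym, h2, map_smul, real_inner_smul_left, real_inner_smul_right,
      real_inner_comm]
    ring
  have h5 : ⟪RR chi (fun j => rho j c₀) (io g), RR chi (fun j => rho j c₀)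
      (io (Ring.inverse (A c₀) (ContinuousLinearMap.adjoint io
        (RR chi (fun j => fderiv ℝ (rho j) c₀ w) (RR chi (fun j => rho j c₀) (io g))))))⟫_ℝ =
        m * ∑ j, rho j c₀ * fderiv ℝ (rho j) c₀ w * ‖chi j (io g)‖ ^ 2 := by
    rw [hfl, ← hco.inv_sym, h2, real_inner_smul_left, ContinuousLinearMap.adjoint_inner_right,
      ← hc.RR_sym, real_inner_comm, Dsf_inner_RR hc]
  rw [h3, h4, h5]
  have h6 : ∀ j, fderiv ℝ (fun c => rho j c ^ 2) c₀ w = 2 * (rho j c₀ * fderiv ℝ (rho j) c₀ w) := by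
    intro j
    have h7 := ((hrho j).hasFDerivAt.pow 2).fderiv
    rw [h7]
    simp
    ring
  have h8 : ∑ j, fderiv ℝ (fun c => rho j c ^ 2) c₀ w * ‖chi j (io g)‖ ^ 2 =
      2 * ∑ j, rho j c₀ * fderiv ℝ (rho j) c₀ w * ‖chi j (io g)‖ ^ 2 := by
    rw [Finset.mul_sum]
    refine Finset.sum_congr rfl fun j _ => ?_
    rw [h6 j]
    ring
  rw [h8]
  ring

end Pool.Agent.MP4eed4eP.PA
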