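import Pool.Agent.Lib.MP_4eed4e_an_PA.Df

/-!
# Project P, block A: decreasing enumeration of a family of positive numbers
-/

open scoped InnerProductSpace

namespace Pool.Agent.MP4eed4eP.PA

/-- Decreasing enumeration.
Proof.  `κ` is the union of the finite sets `{x | 1 / (n + 1) <= mu x}`, so countable
(`Set.countable_iUnion`, `Set.countable_univ_iff`); let `i : κ → ℕ` be injective.  Put
`x < y` iff `mu y < mu x` or (`mu x = mu y` and `i x < i y`): a strict total order, and
`{y | y < x}` is a subset of `{y | mu x <= mu y}`, so finite.  Let `r x` be the cardinality of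
`{y | y < x}` (`Set.ncard`).  `x < y` implies `r x < r y` (strict inclusion of finite sets), so
`r` is injective.  `r` is surjective: by strong induction on `n`; if `n` is not in the range
then, the sets `{x | r x < n}` having at most `n` elements and `κ` being infinite, there is
`x` with `r x > n`, take such `x` with `r x` minimal: the predecessors of `x` are `r x` many,
their ranks are distinct numbers `< r x`, so they are all the numbers `< r x`
(`Finset.eq_of_subset_of_card_le`), including `n`, contradiction.  `e` is the inverse of the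
bijection `r`, and if `n <= m` then not `e m < e n`, so `mu (e m) <= mu (e n)`.
(Alternative: `LocallyFiniteOrderBot` and `orderIsoNatOfLinearSuccPredArch`, or
`Nat.Subtype.orderIsoOfNat`.) -/
theorem exists_enum {κ : Type*} [Infinite κ] (mu : κ → ℝ) (hpos : ∀ x, 0 < mu x)
    (hfin : ∀ ε > 0, {x | ε ≤ mu x}.Finite) :
    ∃ e : ℕ ≃ κ, Antitone (fun n => mu (e n)) := by
  have hc : Countable κ := by
    rw [← Set.countable_univ_iff]
    have h1 : (Set.univ : Set κ) = ⋃ n : ℕ, {x | 1 / ((n : ℝ) + 1) ≤ mu x} := by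
      ext x
      simp only [Set.mem_univ, Set.mem_iUnion, Set.mem_ofPred_eq, true_iff]
      obtain ⟨n, hn⟩ := exists_nat_one_div_lt (hpos x)
      exact ⟨n, hn.le⟩
    rw [h1]
    exact Set.countable_iUnion fun n => (hfin _ (by positivity)).countable
  obtain ⟨i, hi⟩ := countable_iff_exists_injective κ |>.1 hc
  let S : κ → Set κ := fun x => {y | mu x < mu y ∨ (mu y = mu x ∧ i y < i x)}
  have hS : ∀ x, (S x).Finite := by
    intro x
    refine (hfin _ (hpos x)).subset ?_
    rintro y (h | h)
    · exact h.le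
    · exact h.1.ge
  have hself : ∀ x, x ∉ S x := by
    rintro x (h | h)
    · exact lt_irrefl _ h
    · exact lt_irrefl _ h.2
  have htrans : ∀ x y, x ∈ S y → S x ⊆ S y := by
    rintro x y hxy z hz
    rcases hxy with h | h <;> rcases hz with h' | h'
    · exact Or.inl (h.trans h')
    · exact Or.inl (by rw [h'.1]; exact h)
    · exact Or.inl (by rw [← h.1]; exact h')
    · exact Or.inr ⟨h'.1.trans h.1, h'.2.trans h.2⟩
  let r : κ → ℕ := fun x => (S x).ncard
  have hr : ∀ x y, x ∈ S y → r x < r y := fun x y h =>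
    Set.ncard_lt_ncard ⟨htrans x y h, fun h2 => hself x (h2 h)⟩ (hS y)
  have htri : ∀ x y, x ≠ y → x ∈ S y ∨ y ∈ S x := by
    intro x y hxy
    rcases lt_trichotomy (mu x) (mu y) with h | h | h
    · exact Or.inr (Or.inl h)
    · rcases lt_trichotomy (i x) (i y) with h' | h' | h'
      · exact Or.inl (Or.inr ⟨h, h'⟩)
      · exact absurd (hi h') hxy
      · exact Or.inr (Or.inr ⟨h.symm, h'⟩)
    · exact Or.inl (Or.inl h)
  have hinj : Function.Injective r := by
    intro x y hxy
    by_contra hne
    rcases htri x y hne with h | h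
    · exact absurd (hr x y h) (by rw [hxy]; exact lt_irrefl _)
    · exact absurd (hr y x h) (by rw [hxy]; exact lt_irrefl _)
  have hsurj : Function.Surjective r := by
    intro n
    obtain ⟨m, ⟨x, rfl⟩, hm⟩ := (Set.infinite_range_of_injective hinj).exists_gt n
    have h1 : r '' S x ⊆ Set.Iio (r x) := by
      rintro _ ⟨y, hy, rfl⟩
      exact hr y x hy
    have h2 : (Set.Iio (r x)).ncard ≤ (r '' S x).ncard := by
      rw [Set.ncard_image_of_injective _ hinj]
      have : (Set.Iio (r x)).ncard = r x := by
        rw [← Finset.coe_range, Set.ncard_coe_finset, Finset.card_range]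
      rw [this]
    have h3 := Set.eq_of_subset_of_ncard_le h1 h2 (Set.finite_Iio _)
    have h4 : n ∈ r '' S x := by
      rw [h3]
      exact hm
    obtain ⟨y, -, hy⟩ := h4
    exact ⟨y, hy⟩
  refine ⟨(Equiv.ofBijective r ⟨hinj, hsurj⟩).symm, ?_⟩
  intro n m hnm
  by_contra hlt
  have h1 := hr _ _ (Or.inl (not_le.1 hlt) :
    (Equiv.ofBijective r ⟨hinj, hsurj⟩).symm m ∈ S ((Equiv.ofBijective r ⟨hinj, hsurj⟩).symm n))
  have h2 : ∀ k, r ((Equiv.ofBijective r ⟨hinj, hsurj⟩).symm k) = k := fun k =>
    (Equiv.ofBijective r ⟨hinj, hsurj⟩).apply_symm_apply k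
  rw [h2, h2] at h1
  exact absurd hnm (not_le.2 h1)

/-- If `mu ^ 2` is summable then the sets `{x | ε <= mu x}` are finite.
Proof: `Summable.tendsto_cofinite_zero`, eventually `mu x ^ 2 < ε ^ 2`. -/
theorem finite_of_summable_sq {κ : Type*} {mu : κ → ℝ} (hpos : ∀ x, 0 < mu x)
    (hs : Summable fun x => mu x ^ 2) {ε : ℝ} (hε : 0 < ε) : {x | ε ≤ mu x}.Finite := by
  have h1 := hs.tendsto_cofinite_zero.eventually (gt_mem_nhds (pow_pos hε 2))
  refine Set.Finite.subset (Filter.eventually_cofinite.1 h1) ?_
  intro x hx h2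
  have h3 := hpos x
  have h4 : ε ≤ mu x := hx
  nlinarith

end Pool.Agent.MP4eed4eP.PA
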