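import Pool.Agent.Lib.MP_4eed4e_an_PA.MmL

/-!
# Project P, block A: min-max (A7)
-/

open scoped InnerProductSpace

namespace Pool.Agent.MP4eed4eP.PA

variable {H L : Type*} [NormedAddCommGroup H] [InnerProductSpace ℝ H] [CompleteSpace H]
  [NormedAddCommGroup L] [InnerProductSpace ℝ L] [CompleteSpace L]

omit [CompleteSpace L] in
/-- Inner products of a member of an orthonormal family with a linear combination. -/
private theorem mm_inner {v : ℕ → L} (hv : Orthonormal ℝ v) {n : ℕ} (c : Fin (n + 1) → ℝ)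
    (i : Fin (n + 1)) : ⟪v i, ∑ j, c j • v j⟫_ℝ = c i := by
  have h1 : Orthonormal ℝ fun i : Fin (n + 1) => v i := hv.comp _ Fin.val_injective
  exact h1.inner_right_fintype c i

/-- The form at the vectors `g`. -/
private theorem mm_form {io : H →L[ℝ] L} {A : H →L[ℝ] H} {R : L →L[ℝ] L} {v : ℕ → L}
    {mu : ℕ → ℝ} (hE : Eig (SS io A R) v mu) {g : ℕ → H} (hg : ∀ k, R (io (g k)) = v k)
    (hAg : ∀ k w, ⟪A (g k), w⟫_ℝ = (mu k)⁻¹ * ⟪v k, R (io w)⟫_ℝ) {n : ℕ}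
    (c : Fin (n + 1) → ℝ) :
    ‖R (io (∑ i, c i • g i))‖ ^ 2 = ∑ i, c i ^ 2 ∧
      ⟪A (∑ i, c i • g i), ∑ i, c i • g i⟫_ℝ = ∑ i : Fin (n + 1), (mu i)⁻¹ * c i ^ 2 := by
  have h1 : R (io (∑ i : Fin (n + 1), c i • g i)) = ∑ i : Fin (n + 1), c i • v i := by
    rw [map_sum, map_sum]
    refine Finset.sum_congr rfl fun i _ => ?_
    rw [map_smul, map_smul, hg]
  constructor
  · rw [h1, ← real_inner_self_eq_norm_sq, sum_inner]
    refine Finset.sum_congr rfl fun i _ => ?_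
    rw [real_inner_smul_left, mm_inner hE.on]
    ring
  · rw [map_sum, sum_inner]
    refine Finset.sum_congr rfl fun i _ => ?_
    rw [map_smul, real_inner_smul_left, hAg, h1, mm_inner hE.on]
    ring

/-- Upper bound.
Proof.  `g` as in `exists_g`.  For `h : Fin (n + 1) → H` and `c : Fin (n + 1) → ℝ` let
`W = sum_i c_i h_i` and `phi c h = r |R io W|^2 - <A W, W>`, continuous in `(c, h)`, homogeneous
of degree two in `c`.  For `h = g`: `R io W = sum c_i v_i`, `|.|^2 = sum c_i^2`,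
`<A W, W> = sum_i c_i^2 / mu_i`, so `phi c g = sum (r - 1 / mu_i) c_i^2 > 0` for `c /= 0`
(`1 / mu_i <= 1 / mu_n < r`).  The unit sphere of `Fin (n + 1) → ℝ` is compact, so for all `h` in a
neighbourhood of `g` (`Fin (n+1) → H` with the product topology) `phi c h > 0` for all `|c| = 1`
(`IsCompact.eventually_forall_of_forall_eventually` or generalized tube lemma), hence for all
`c /= 0`.  By density of `D0` choose such an `h` with all `h_i` in `D0` (`dense_pi` or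
coordinatewise).  `h` is linearly independent (`sum c_i h_i = 0`, `c /= 0` would give
`phi c h = 0`), `V = span (range h) <= D0`, `finrank V = n + 1`
(`finrank_span_eq_card`), and every `w` of `V` is `sum c_i h_i`
(`Submodule.mem_span_range_iff_exists_fun`). -/
theorem mm_upper {io : H →L[ℝ] L} {A : H →L[ℝ] H} (hA : Coer A) {R : L →L[ℝ] L}
    (hR : ∀ f g, ⟪R f, g⟫_ℝ = ⟪f, R g⟫_ℝ) {v : ℕ → L} {mu : ℕ → ℝ}
    (hE : Eig (SS io A R) v mu) (hmu : Antitone mu) {D0 : Submodule ℝ H}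
    (hD : Dense (D0 : Set H)) (n : ℕ) {r : ℝ} (hr : (mu n)⁻¹ < r) :
    ∃ V : Submodule ℝ H, V ≤ D0 ∧ Module.finrank ℝ V = n + 1 ∧
      ∀ w ∈ V, ⟪A w, w⟫_ℝ ≤ r * ‖R (io w)‖ ^ 2 := by
  obtain ⟨g, hg, hAg⟩ := exists_g hA hR hE
  have hpos : ∀ c : Fin (n + 1) → ℝ, c ≠ 0 →
      ⟪A (∑ i, c i • g i), ∑ i, c i • g i⟫_ℝ < r * ‖R (io (∑ i, c i • g i))‖ ^ 2 := by
    intro c hc
    obtain ⟨h1, h2⟩ := mm_form hE hg hAg c
    rw [h1, h2, Finset.mul_sum]
    have hlt : ∀ i : Fin (n + 1), (mu i)⁻¹ < r := by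
      intro i
      refine lt_of_le_of_lt ?_ hr
      have h3 : mu n ≤ mu i := hmu (Nat.lt_succ_iff.1 i.2)
      exact inv_anti₀ (hE.pos n) h3
    obtain ⟨i, hi⟩ : ∃ i, c i ≠ 0 := by
      by_contra hcon
      push Not at hcon
      exact hc (funext hcon)
    refine Finset.sum_lt_sum (fun j _ => ?_) ⟨i, Finset.mem_univ i, ?_⟩
    · exact mul_le_mul_of_nonneg_right (hlt j).le (sq_nonneg _)
    · exact mul_lt_mul_of_pos_right (hlt i) (by positivity)
  have hev : ∀ᶠ h : Fin (n + 1) → H in nhds fun i => g i,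
      ∀ c ∈ Metric.sphere (0 : Fin (n + 1) → ℝ) 1,
        ⟪A (∑ i, c i • h i), ∑ i, c i • h i⟫_ℝ < r * ‖R (io (∑ i, c i • h i))‖ ^ 2 := by
    refine IsCompact.eventually_forall_of_forall_eventually (isCompact_sphere _ _)
      fun c hc => ?_
    have hc0 : c ≠ 0 := by
      rintro rfl
      simp at hc
    have hcont : Continuous fun z : (Fin (n + 1) → H) × (Fin (n + 1) → ℝ) =>
        ∑ i, z.2 i • z.1 i := by fun_prop
    have h1 : Continuous fun z : (Fin (n + 1) → H) × (Fin (n + 1) → ℝ) =>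
        ⟪A (∑ i, z.2 i • z.1 i), ∑ i, z.2 i • z.1 i⟫_ℝ := by fun_prop
    have h2 : Continuous fun z : (Fin (n + 1) → H) × (Fin (n + 1) → ℝ) =>
        r * ‖R (io (∑ i, z.2 i • z.1 i))‖ ^ 2 := by fun_prop
    exact h1.continuousAt.eventually_lt h2.continuousAt (hpos c hc0)
  have hdense : Dense (Set.univ.pi fun _ : Fin (n + 1) => (D0 : Set H)) :=
    dense_pi _ fun _ _ => hD
  obtain ⟨h, hhD, hh⟩ := hdense.exists_mem_open isOpen_interior
    ⟨_, mem_interior_iff_mem_nhds.2 hev⟩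
  have hP : ∀ c ∈ Metric.sphere (0 : Fin (n + 1) → ℝ) 1,
      ⟪A (∑ i, c i • h i), ∑ i, c i • h i⟫_ℝ < r * ‖R (io (∑ i, c i • h i))‖ ^ 2 :=
    interior_subset hh
  have hP' : ∀ c : Fin (n + 1) → ℝ, c ≠ 0 →
      ⟪A (∑ i, c i • h i), ∑ i, c i • h i⟫_ℝ < r * ‖R (io (∑ i, c i • h i))‖ ^ 2 := by
    intro c hc
    have h0 : 0 < ‖c‖ := norm_pos_iff.2 hc
    have h1 := hP (‖c‖⁻¹ • c) (by
      rw [mem_sphere_zero_iff_norm, norm_smul, norm_inv, norm_norm, inv_mul_cancel₀ h0.ne'])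
    have h2 : ∑ i, (‖c‖⁻¹ • c) i • h i = ‖c‖⁻¹ • ∑ i, c i • h i := by
      rw [Finset.smul_sum]
      refine Finset.sum_congr rfl fun i _ => ?_
      rw [Pi.smul_apply, smul_eq_mul, mul_smul]
    rw [h2, map_smul, map_smul, map_smul, real_inner_smul_left, real_inner_smul_right,
      norm_smul, norm_inv, norm_norm] at h1
    have h3 : 0 < ‖c‖⁻¹ ^ 2 := by positivity
    have h4 : ‖c‖⁻¹ ^ 2 * ⟪A (∑ i, c i • h i), ∑ i, c i • h i⟫_ℝ <
        ‖c‖⁻¹ ^ 2 * (r * ‖R (io (∑ i, c i • h i))‖ ^ 2) := by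
      nlinarith
    exact lt_of_mul_lt_mul_left h4 h3.le
  have hli : LinearIndependent ℝ h := by
    rw [Fintype.linearIndependent_iff]
    intro c hc
    by_contra hcon
    have hc0 : c ≠ 0 := by
      rintro rfl
      exact hcon fun i => rfl
    have h1 := hP' c hc0
    rw [hc] at h1
    simp at h1
  refine ⟨Submodule.span ℝ (Set.range h), ?_, ?_, ?_⟩
  · rw [Submodule.span_le]
    rintro _ ⟨i, rfl⟩
    exact hhD i (Set.mem_univ i)
  · rw [finrank_span_eq_card hli, Fintype.card_fin]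
  · intro w hw
    obtain ⟨c, rfl⟩ := (Submodule.mem_span_range_iff_exists_fun ℝ).1 hw
    by_cases hc : c = 0
    · rw [hc]
      simp
    · exact (hP' c hc).le

/-- A7.  Proof: `mm_upper` (every `r > (mu n)⁻¹` belongs to the set) and `mm_lower` (lower bound
of the set): `csInf_eq_of_forall_ge_of_forall_gt_exists_lt` or `le_antisymm`. -/
theorem mm_eq {io : H →L[ℝ] L} {A : H →L[ℝ] H} (hA : Coer A) {R : L →L[ℝ] L}
    (hR : ∀ f g, ⟪R f, g⟫_ℝ = ⟪f, R g⟫_ℝ) {v : ℕ → L} {mu : ℕ → ℝ}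
    (hE : Eig (SS io A R) v mu) (hmu : Antitone mu) {D0 : Submodule ℝ H}
    (hD : Dense (D0 : Set H)) (n : ℕ) : mm io A R D0 (n + 1) = (mu n)⁻¹ := by
  unfold mm
  refine csInf_eq_of_forall_ge_of_forall_gt_exists_lt ?_ ?_ ?_
  · obtain ⟨V, h1, h2, h3⟩ := mm_upper hA hR hE hmu hD n (lt_add_one (mu n)⁻¹)
    exact ⟨_, V, h1, h2, h3⟩
  · rintro r ⟨V, -, h2, h3⟩
    exact mm_lower hA hR hE hmu h2 h3
  · intro w hw
    obtain ⟨r, hr, hrw⟩ := exists_between hw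
    obtain ⟨V, h1, h2, h3⟩ := mm_upper hA hR hE hmu hD n hr
    exact ⟨r, ⟨V, h1, h2, h3⟩, hrw⟩

end Pool.Agent.MP4eed4eP.PA
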