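import Pool.Agent.Lib.MP_4eed4e_an_PA.Enu

/-!
# Project P, block A: separation of the levels (A8)
-/

namespace Pool.Agent.MP4eed4eP.PA

open Filter Topology

/-- The sum over a finite set which contains a level. -/
private theorem Sep_level {κ : Type*} {mu c : κ → ℝ} (s : Finset κ) (v : ℝ)
    (hs : ∀ k, mu k = v → k ∈ s) :
    ∑ k ∈ s with mu k = v, c k = ∑' k : {k // mu k = v}, c k := by
  have h1 : ∑' k : {k // mu k = v}, c k = ∑' k, Set.indicator {k | mu k = v} c k :=
    tsum_subtype {k | mu k = v} c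
  rw [h1, tsum_eq_sum (s := s.filter fun k => mu k = v)]
  · refine Finset.sum_congr rfl fun k hk => ?_
    rw [Finset.mem_filter] at hk
    rw [Set.indicator_of_mem (show k ∈ {k | mu k = v} from hk.2)]
  · intro k hk
    refine Set.indicator_of_notMem (fun h => hk ?_) c
    rw [Finset.mem_filter]
    exact ⟨hs k h, h⟩

private theorem Sep_aux {κ : Type*} {mu c : κ → ℝ} (hpos : ∀ k, 0 < mu k)
    (hs : Summable fun k => mu k ^ 2) {C : ℝ} (hc : ∀ k, |c k| ≤ C)
    (h0 : ∀ a : ℕ, 2 ≤ a → ∑' k, mu k ^ (2 * a) * c k = 0) {m : ℝ} (hm : 0 < m)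
    (ih : ∀ v, m < v → ∑' k : {k // mu k = v}, c k = 0) :
    ∑' k : {k // mu k = m}, c k = 0 := by
  classical
  have hfin : {k | m < mu k}.Finite :=
    (finite_of_summable_sq hpos hs hm).subset fun k (hk : m < mu k) => show m ≤ mu k from hk.le
  obtain ⟨s, hsd⟩ : ∃ s : Finset κ, ∀ k, k ∈ s ↔ m < mu k := by
    refine ⟨hfin.toFinset, fun k => ?_⟩
    rw [Set.Finite.mem_toFinset]
    exact Iff.rfl
  -- the total sums
  have hbd : ∀ a : ℕ, 1 ≤ a → ∀ k, mu k ≤ m →
      ‖(mu k / m) ^ (2 * a) * c k‖ ≤ C / m ^ 2 * mu k ^ 2 := by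
    intro a ha k hk
    have h1 : 0 ≤ mu k / m := (div_pos (hpos k) hm).le
    have h2 : mu k / m ≤ 1 := (div_le_one hm).2 hk
    have h3 : (mu k / m) ^ (2 * a) ≤ (mu k / m) ^ 2 := pow_le_pow_of_le_one h1 h2 (by omega)
    rw [norm_mul, Real.norm_eq_abs, Real.norm_eq_abs, abs_of_nonneg (pow_nonneg h1 _)]
    calc (mu k / m) ^ (2 * a) * |c k| ≤ (mu k / m) ^ 2 * C :=
          mul_le_mul h3 (hc k) (abs_nonneg _) (pow_nonneg h1 _)
      _ = C / m ^ 2 * mu k ^ 2 := by
          rw [div_pow]
          ring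
  have hbs : Summable fun k => C / m ^ 2 * mu k ^ 2 := hs.mul_left _
  have hC : ∀ k, 0 ≤ C / m ^ 2 * mu k ^ 2 := fun k =>
    mul_nonneg (div_nonneg ((abs_nonneg _).trans (hc k)) (by positivity)) (by positivity)
  have hhs : ∀ a : ℕ, 1 ≤ a →
      Summable fun k => if m < mu k then (mu k / m) ^ (2 * a) * c k else 0 := by
    intro a _
    refine summable_of_ne_finset_zero (s := s) fun k hk => ?_
    rw [hsd] at hk
    rw [if_neg hk]
  have hfs : ∀ a : ℕ, 1 ≤ a →
      Summable fun k => if m < mu k then 0 else (mu k / m) ^ (2 * a) * c k := by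
    intro a ha
    refine Summable.of_norm_bounded hbs fun k => ?_
    split_ifs with h
    · rw [norm_zero]
      exact hC k
    · exact hbd a ha k (not_lt.1 h)
  have htot : ∀ a : ℕ, 2 ≤ a → ∑' k, (mu k / m) ^ (2 * a) * c k = 0 := by
    intro a ha
    have h1 : ∀ k, (mu k / m) ^ (2 * a) * c k = (m ^ (2 * a))⁻¹ * (mu k ^ (2 * a) * c k) := by
      intro k
      rw [div_pow]
      ring
    simp only [h1]
    rw [tsum_mul_left, h0 a ha, mul_zero]
  have hhz : ∀ a : ℕ, ∑' k, (if m < mu k then (mu k / m) ^ (2 * a) * c k else 0) = 0 := by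
    intro a
    rw [tsum_eq_sum (s := s) (fun k hk => if_neg (by rwa [hsd] at hk))]
    have h1 : ∑ k ∈ s, (if m < mu k then (mu k / m) ^ (2 * a) * c k else 0) =
        ∑ k ∈ s, (mu k / m) ^ (2 * a) * c k :=
      Finset.sum_congr rfl fun k hk => if_pos ((hsd k).1 hk)
    rw [h1, ← Finset.sum_fiberwise_of_maps_to (t := s.image mu) (g := mu)
      (fun k hk => Finset.mem_image_of_mem mu hk)]
    refine Finset.sum_eq_zero fun v hv => ?_
    obtain ⟨k', hk', rfl⟩ := Finset.mem_image.1 hv
    have h2 : ∑ k ∈ s with mu k = mu k', (mu k / m) ^ (2 * a) * c k =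
        (mu k' / m) ^ (2 * a) * ∑ k ∈ s with mu k = mu k', c k := by
      rw [Finset.mul_sum]
      refine Finset.sum_congr rfl fun k hk => ?_
      rw [(Finset.mem_filter.1 hk).2]
    have h3 : m < mu k' := (hsd k').1 hk'
    have h4 : ∀ k, mu k = mu k' → k ∈ s := fun k hk => (hsd k).2 (h3.trans_eq hk.symm)
    rw [h2, Sep_level s (mu k') h4, ih _ h3, mul_zero]
  have hfz : ∀ a : ℕ, 2 ≤ a →
      ∑' k, (if m < mu k then 0 else (mu k / m) ^ (2 * a) * c k) = 0 := by
    intro a ha
    have h1 := (hhs a (by omega)).tsum_add (hfs a (by omega))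
    rw [hhz a, zero_add] at h1
    rw [← h1]
    refine Eq.trans (tsum_congr fun k => ?_) (htot a ha)
    split_ifs
    · exact add_zero _
    · exact zero_add _
  have hlim : Tendsto (fun a : ℕ => ∑' k, (if m < mu k then 0 else (mu k / m) ^ (2 * a) * c k))
      atTop (𝓝 (∑' k, Set.indicator {k | mu k = m} c k)) := by
    refine tendsto_tsum_of_dominated_convergence hbs (fun k => ?_) ?_
    · by_cases h : m < mu k
      · simp only [if_pos h]
        have hn : k ∉ {k | mu k = m} := fun h' => absurd (show mu k = m from h') h.ne'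
        rw [Set.indicator_of_notMem hn]
        exact tendsto_const_nhds
      · simp only [if_neg h]
        rcases (not_lt.1 h).lt_or_eq with h1 | h1
        · have hn : k ∉ {k | mu k = m} := fun h' => absurd (show mu k = m from h') h1.ne
          rw [Set.indicator_of_notMem hn]
          have h2 : 0 ≤ (mu k / m) ^ 2 := by positivity
          have h3 : (mu k / m) ^ 2 < 1 :=
            pow_lt_one₀ (div_pos (hpos k) hm).le ((div_lt_one hm).2 h1) two_ne_zero
          have h4 := (tendsto_pow_atTop_nhds_zero_of_lt_one h2 h3).mul_const (c k)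
          rw [zero_mul] at h4
          refine h4.congr fun a => ?_
          rw [pow_mul]
        · rw [Set.indicator_of_mem (show k ∈ {k | mu k = m} from h1)]
          have h2 : ∀ a : ℕ, (mu k / m) ^ (2 * a) * c k = c k := by
            intro a
            rw [h1, div_self hm.ne', one_pow, one_mul]
          simp only [h2]
          exact tendsto_const_nhds
    · filter_upwards [eventually_ge_atTop 1] with a ha
      intro k
      split_ifs with h
      · rw [norm_zero]
        exact hC k
      · exact hbd a ha k (not_lt.1 h)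
  have hlim0 : Tendsto (fun a : ℕ => ∑' k, (if m < mu k then 0 else (mu k / m) ^ (2 * a) * c k))
      atTop (𝓝 0) := by
    refine tendsto_const_nhds.congr' ?_
    filter_upwards [eventually_ge_atTop 2] with a ha
    exact (hfz a ha).symm
  have h1 : ∑' k : {k // mu k = m}, c k = ∑' k, Set.indicator {k | mu k = m} c k :=
    tsum_subtype {k | mu k = m} c
  rw [h1]
  exact tendsto_nhds_unique hlim hlim0

/-- A8.  If `sum_k mu_k^(2a) c_k = 0` for all `a >= 2` then the sum of the `c_k` over every level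
set of `mu` vanishes.
Proof.  The level sets of positive numbers are finite (`finite_of_summable_sq`), for `m <= 0` they
are empty.  Suppose `sum_{mu = m} c /= 0` for some `m` (so `m > 0`).  The values `m' >= m` of `mu`
are finitely many, so there is a largest `m` with this property: all level sums above `m` vanish.
Let `C_m` be the sum over the level `m`.  For `a >= 2` the series
`sum mu_k^(2a) c_k` converges absolutely (`mu_k^(2a) |c_k| <= C B mu_k^2`, `mu_k` bounded) and
splits: `0 = sum_{mu_k > m} + m^(2a) C_m + sum_{mu_k < m} mu_k^(2a) c_k`; the first sum is finite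
and equals `sum over the levels m' > m of m'^(2a) * (level sum) = 0`.  The values of `mu` below
`m`: there is `q < m`, `q > 0`, with `mu_k <= q` whenever `mu_k < m` (the values in
`[m / 2, m)` are finitely many).  So
`m^(2a) |C_m| <= C sum_{mu_k < m} mu_k^(2a) <= C q^(2a-2) sum mu_k^2`, i.e.
`|C_m| <= C' (q / m)^(2a)` for all `a >= 2`, with `C' = C q^(-2) sum mu^2`: so `C_m = 0`
(`tendsto_pow_atTop_nhds_zero_of_lt_one`), contradiction. -/
theorem level_sum_eq_zero {κ : Type*} {mu c : κ → ℝ} (hpos : ∀ k, 0 < mu k)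
    (hs : Summable fun k => mu k ^ 2) {C : ℝ} (hc : ∀ k, |c k| ≤ C)
    (h0 : ∀ a : ℕ, 2 ≤ a → ∑' k, mu k ^ (2 * a) * c k = 0) (m : ℝ) :
    ∑' k : {k // mu k = m}, c k = 0 := by
  suffices H : ∀ (n : ℕ) (m : ℝ), 0 < m → {k | m ≤ mu k}.ncard ≤ n →
      ∑' k : {k // mu k = m}, c k = 0 by
    rcases le_or_gt m 0 with hm | hm
    · have : IsEmpty {k // mu k = m} := ⟨fun k => by
        have h1 := hpos k.1
        have h2 := k.2
        linarith⟩
      exact tsum_empty
    · exact H _ m hm le_rfl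
  intro n
  induction n with
  | zero =>
    intro m hm hn
    have h1 : {k | m ≤ mu k} = ∅ :=
      (Set.ncard_eq_zero (finite_of_summable_sq hpos hs hm)).1 (Nat.le_zero.1 hn)
    have : IsEmpty {k // mu k = m} := ⟨fun k => by
      have h2 : k.1 ∈ {k | m ≤ mu k} := k.2.ge
      rw [h1] at h2
      exact h2⟩
    exact tsum_empty
  | succ n ih =>
    intro m hm hn
    rcases isEmpty_or_nonempty {k // mu k = m} with hE | ⟨⟨k₀, hk₀⟩⟩
    · exact tsum_empty
    refine Sep_aux hpos hs hc h0 hm fun v hv => ih v (hm.trans hv) ?_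
    have h1 : {k | v ≤ mu k} ⊂ {k | m ≤ mu k} := by
      refine ⟨fun k hk => hv.le.trans hk, fun h => ?_⟩
      have h2 : k₀ ∈ {k | v ≤ mu k} := h hk₀.ge
      have h3 : v ≤ mu k₀ := h2
      linarith
    have h2 := Set.ncard_lt_ncard h1 (finite_of_summable_sq hpos hs hm)
    omega

/-- A8 for a simple level.  Proof: the subtype is a singleton, `tsum_eq_single` or
`tsum_fintype`. -/
theorem simple_level_eq_zero {κ : Type*} {mu c : κ → ℝ} (hpos : ∀ k, 0 < mu k)
    (hs : Summable fun k => mu k ^ 2) {C : ℝ} (hc : ∀ k, |c k| ≤ C)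
    (h0 : ∀ a : ℕ, 2 ≤ a → ∑' k, mu k ^ (2 * a) * c k = 0) {k₀ : κ}
    (hk : ∀ k, mu k = mu k₀ → k = k₀) : c k₀ = 0 := by
  have h1 := level_sum_eq_zero hpos hs hc h0 (mu k₀)
  rw [tsum_eq_single (⟨k₀, rfl⟩ : {k // mu k = mu k₀})
    (fun k hk' => absurd (Subtype.ext (hk k.1 k.2)) hk')] at h1
  exact h1

end Pool.Agent.MP4eed4eP.PA
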