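import Pool.Agent.Lib.MP_4eed4e_an_PA.Df

/-!
# Project P, block A: complete orthonormal systems of eigenvectors
-/

open scoped InnerProductSpace

namespace Pool.Agent.MP4eed4eP.PA

variable {L : Type*} [NormedAddCommGroup L] [InnerProductSpace ℝ L] [CompleteSpace L]

/-- Spectral theorem for an injective nonnegative symmetric compact operator.
Proof.  For every real `m` the eigenspace `V m = Module.End.eigenspace T m` is closed, so a
complete space, and has a Hilbert basis `w m` (a set of vectors of `V m`,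
`exists_hilbertBasis`).  The union `K` of these sets (images in `L`) is orthonormal: for
different eigenvalues the eigenspaces are orthogonal
(`LinearMap.IsSymmetric.orthogonalFamily_eigenspaces`; `OrthogonalFamily` /
`OrthogonalFamily.orthonormal_sigma_orthonormal`), and a vector of `K` is a unit vector which
belongs to one eigenspace only.  If `f` is orthogonal to `K` then `f` is orthogonal to every
`V m` (density of the span of the Hilbert basis), so to their supremum, and `f = 0` by
`ContinuousLinearMap.orthogonalComplement_iSup_eigenspaces_eq_bot` (see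
Mathlib/Analysis/InnerProductSpace/Spectrum.lean for the exact name and form).  `mu x` is the
eigenvalue of `x`: `mu x = <T x, x> >= 0`, and `mu x /= 0` because `T` is injective.
(Alternative: a maximal orthonormal set of eigenvectors by Zorn's lemma and
`eq_zero_of_forall_hasEigenvalue_eq_zero` on the orthogonal complement.) -/
theorem exists_eig {T : L →L[ℝ] L} (hT : IsCompactOperator T) (hN : Nng T)
    (hi : ∀ f, T f = 0 → f = 0) :
    ∃ (K : Set L) (mu : K → ℝ), Eig T (fun x : K => (x : L)) mu := by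
  have hT' : (T : L →ₗ[ℝ] L).IsSymmetric := fun f g => hN.sym f g
  have hV : ∀ (μ : ℝ) (x : L), x ∈ Module.End.eigenspace (T : L →ₗ[ℝ] L) μ ↔ T x = μ • x := by
    intro μ x
    rw [Module.End.mem_eigenspace_iff]
    rfl
  have hcl : ∀ μ : ℝ, IsClosed (Module.End.eigenspace (T : L →ₗ[ℝ] L) μ : Set L) := by
    intro μ
    have h1 : (Module.End.eigenspace (T : L →ₗ[ℝ] L) μ : Set L) = {x | T x = μ • x} := by
      ext x
      exact hV μ x
    rw [h1]
    exact isClosed_eq T.continuous (continuous_const_smul μ)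
  have hcs : ∀ μ : ℝ, CompleteSpace (Module.End.eigenspace (T : L →ₗ[ℝ] L) μ) :=
    fun μ => (hcl μ).completeSpace_coe
  have hb := fun μ : ℝ => exists_hilbertBasis ℝ (Module.End.eigenspace (T : L →ₗ[ℝ] L) μ)
  choose w b hb using hb
  obtain ⟨K, hK⟩ : ∃ K : Set L, ∀ x, x ∈ K ↔ ∃ (μ : ℝ) (y : w μ), (y : L) = x :=
    ⟨{x | ∃ (μ : ℝ) (y : w μ), (y : L) = x}, fun x => Iff.rfl⟩
  have hon : ∀ μ, Orthonormal ℝ fun y : w μ => (y : Module.End.eigenspace (T : L →ₗ[ℝ] L) μ) := by
    intro μ
    have h1 := (b μ).orthonormal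
    rw [hb μ] at h1
    exact h1
  have hnorm : ∀ x ∈ K, ‖x‖ = 1 := by
    intro x hx
    obtain ⟨μ, y, rfl⟩ := (hK x).1 hx
    exact (hon μ).1 y
  have heig : ∀ x ∈ K, T x = ⟪T x, x⟫_ℝ • x := by
    intro x hx
    have hx1 := hnorm x hx
    obtain ⟨μ, y, rfl⟩ := (hK x).1 hx
    have h1 : T ((y : Module.End.eigenspace (T : L →ₗ[ℝ] L) μ) : L) =
        μ • ((y : Module.End.eigenspace (T : L →ₗ[ℝ] L) μ) : L) := (hV μ _).1 y.1.2
    have h2 : ⟪T ((y : Module.End.eigenspace (T : L →ₗ[ℝ] L) μ) : L),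
        ((y : Module.End.eigenspace (T : L →ₗ[ℝ] L) μ) : L)⟫_ℝ = μ := by
      rw [h1, real_inner_smul_left, real_inner_self_eq_norm_sq, hx1]
      ring
    rw [h2]
    exact h1
  refine ⟨K, fun x => ⟪T (x : L), (x : L)⟫_ℝ, ?_, ?_, ?_, ?_⟩
  · refine ⟨fun x => hnorm x x.2, ?_⟩
    rintro ⟨x, hx⟩ ⟨y, hy⟩ hxy
    change ⟪x, y⟫_ℝ = 0
    have hxy' : x ≠ y := fun h => hxy (Subtype.ext h)
    obtain ⟨μ, p, rfl⟩ := (hK x).1 hx
    obtain ⟨ν, q, rfl⟩ := (hK y).1 hy
    by_cases hμ : μ = ν
    · subst hμ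
      exact (hon μ).2 fun h => hxy' (by rw [h])
    · exact hT'.orthogonalFamily_eigenspaces hμ p.1 q.1
  · intro f hf
    have h1 : f ∈ (⨆ μ, Module.End.eigenspace (T : L →ₗ[ℝ] L) μ)ᗮ := by
      rw [← Submodule.iInf_orthogonal, Submodule.mem_iInf]
      intro μ
      rw [Submodule.mem_orthogonal]
      intro u hu
      have h2 := (b μ).hasSum_repr ⟨u, hu⟩
      have h3 := h2.mapL ((innerSL ℝ f) ∘L
        (Module.End.eigenspace (T : L →ₗ[ℝ] L) μ).subtypeL)
      have h4 : ∀ i : w μ, ((innerSL ℝ f) ∘L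
          (Module.End.eigenspace (T : L →ₗ[ℝ] L) μ).subtypeL)
            (((b μ).repr ⟨u, hu⟩) i • (b μ) i) = 0 := by
        intro i
        rw [map_smul]
        have h5 : ⟪f, ((i : Module.End.eigenspace (T : L →ₗ[ℝ] L) μ) : L)⟫_ℝ = 0 := by
          rw [real_inner_comm]
          exact hf ⟨_, (hK _).2 ⟨μ, i, rfl⟩⟩
        have h6 : ((innerSL ℝ f) ∘L
          (Module.End.eigenspace (T : L →ₗ[ℝ] L) μ).subtypeL) ((b μ) i) = 0 := by
          rw [hb μ]
          exact h5
        rw [h6, smul_zero]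
      rw [funext h4] at h3
      have h7 := h3.unique hasSum_zero
      rw [real_inner_comm]
      exact h7
    rw [ContinuousLinearMap.orthogonalComplement_iSup_eigenspaces_eq_bot hT hT'] at h1
    exact (Submodule.mem_bot ℝ).1 h1
  · intro x
    refine lt_of_le_of_ne (hN.nng _) fun h => ?_
    have h1 := heig x x.2
    rw [← h, zero_smul] at h1
    have h2 := hnorm x x.2
    rw [hi _ h1, norm_zero] at h2
    exact zero_ne_one h2
  · intro x
    exact heig x x.2

end Pool.Agent.MP4eed4eP.PA
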