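import Pool.Agent.Lib.MP_4eed4e_an_PA.Ana
import Pool.Agent.Lib.MP_4eed4e_an_PA.Cpt
import Pool.Agent.Lib.MP_4eed4e_an_PA.Spc
import Pool.Agent.Lib.MP_4eed4e_an_PA.Enu
import Pool.Agent.Lib.MP_4eed4e_an_PA.Der
import Pool.Agent.Lib.MP_4eed4e_an_PA.Dsf
import Pool.Agent.Lib.MP_4eed4e_an_PA.Mm
import Pool.Agent.Lib.MP_4eed4e_an_PA.Sep

/-!
# Project P, block A: what the other blocks use

`analyticAt_trc` (Ana), `hasSum_mm`, `fderiv_trc_form` (here), `level_sum_eq_zero`,
`simple_level_eq_zero` (Sep), `Coer.isUnit` (Coe), `strong_of_weak` (Dsf).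
-/

open scoped InnerProductSpace

namespace Pool.Agent.MP4eed4eP.PA

variable {H L : Type*} [NormedAddCommGroup H] [InnerProductSpace ℝ H] [CompleteSpace H]
  [NormedAddCommGroup L] [InnerProductSpace ℝ L] [CompleteSpace L]
  {E : Type*} [NormedAddCommGroup E] [NormedSpace ℝ E]

/-- A3.  The spectrum of `S = R io A⁻¹ io* R`, enumerated decreasingly.
Proof: `S` is Hilbert-Schmidt (`hs_SS`), so compact (`compact_of_hs`), symmetric, nonnegative
(`Coer.nng_SS`, `Cut.RR_sym`), injective (`Coer.SS_inj`, `Cut.RR_inj`), so `exists_eig` gives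
`K`, `mu`; `K` is infinite: else `L` is the span of a finite set (a vector orthogonal to the
finite dimensional span is zero), contradiction.  `sum mu^2 = trc s S 1` is summable
(`hasSum_trc`), so `finite_of_summable_sq`, `exists_enum`, and reindex by `e`. -/
theorem exists_spectrum {ι : Type*} {io : H →L[ℝ] L} {s : ι → L} {k : ι → H} {l : ι → ℝ}
    (hE : Emb io s k l) (hio : ∀ f, ContinuousLinearMap.adjoint io f = 0 → f = 0)
    (hinf : ¬ FiniteDimensional ℝ L) {J : Type*} [Fintype J] {chi : J → L →L[ℝ] L}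
    (hc : Cut chi) {rho : J → ℝ} (hr : ∀ j, 0 < rho j) {A : H →L[ℝ] H} (hA : Coer A) :
    ∃ (v : ℕ → L) (mu : ℕ → ℝ), Eig (SS io A (RR chi rho)) v mu ∧ Antitone mu := by
  have hR := hc.RR_sym rho
  have hS := hs_SS hE A (RR chi rho)
  obtain ⟨K, mu, hK⟩ := exists_eig (compact_of_hs hE.pars _ hS) (hA.nng_SS io hR)
    (fun f hf => hA.SS_inj io hR (fun f hf => hc.RR_inj hr hf) hio hf)
  have hinfK : Infinite K := by
    by_contra hcon
    rw [not_infinite_iff_finite] at hcon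
    apply hinf
    have h1 : FiniteDimensional ℝ (Submodule.span ℝ K) :=
      FiniteDimensional.span_of_finite ℝ K.toFinite
    have h2 : Submodule.span ℝ K = ⊤ := by
      rw [← Submodule.orthogonal_eq_bot_iff, Submodule.eq_bot_iff]
      intro f hf
      refine hK.cpl f fun x => ?_
      exact (Submodule.mem_orthogonal _ _).1 hf x (Submodule.subset_span x.2)
    rw [h2] at h1
    exact Module.Finite.equiv (Submodule.topEquiv (R := ℝ) (M := L))
  have h2 : Summable fun x => mu x ^ 2 := by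
    have h3 := (hasSum_trc hE.pars hK hS (a := 1) le_rfl).summable
    simpa using h3
  obtain ⟨e, he⟩ := exists_enum mu hK.pos (fun ε hε => finite_of_summable_sq hK.pos h2 hε)
  refine ⟨fun n => (e n : L), fun n => mu (e n), ⟨hK.on.comp _ e.injective,
    fun f hf => hK.cpl f fun x => ?_, fun n => hK.pos _, fun n => hK.eig _⟩, he⟩
  have h4 := hf (e.symm x)
  simpa using h4

/-- A3, A4, A7 together: the min-max numbers `mm_n`, `n >= 1` (of a dense subspace `D0`) are
positive, increasing, tend to infinity, and `sum_n mm_n^(-2a) = trc s S a`.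
Proof: `exists_spectrum`, `mm_eq`, `hasSum_trc` (with `hs_SS`); `mu_n -> 0` because
`sum mu_n^2` converges. -/
theorem hasSum_mm {ι : Type*} {io : H →L[ℝ] L} {s : ι → L} {k : ι → H} {l : ι → ℝ}
    (hE : Emb io s k l) (hio : ∀ f, ContinuousLinearMap.adjoint io f = 0 → f = 0)
    (hinf : ¬ FiniteDimensional ℝ L) {J : Type*} [Fintype J] {chi : J → L →L[ℝ] L}
    (hc : Cut chi) {rho : J → ℝ} (hr : ∀ j, 0 < rho j) {A : H →L[ℝ] H} (hA : Coer A)
    {D0 : Submodule ℝ H} (hD : Dense (D0 : Set H)) :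
    (∀ n, 0 < mm io A (RR chi rho) D0 (n + 1)) ∧
    Monotone (fun n => mm io A (RR chi rho) D0 (n + 1)) ∧
    Filter.Tendsto (fun n => mm io A (RR chi rho) D0 (n + 1)) Filter.atTop Filter.atTop ∧
    ∀ a : ℕ, 1 ≤ a → HasSum (fun n => (mm io A (RR chi rho) D0 (n + 1))⁻¹ ^ (2 * a))
      (trc s (SS io A (RR chi rho)) a) := by
  obtain ⟨v, mu, hv, hmu⟩ := exists_spectrum hE hio hinf hc hr hA
  have hmm : ∀ n, mm io A (RR chi rho) D0 (n + 1) = (mu n)⁻¹ :=
    fun n => mm_eq hA (hc.RR_sym rho) hv hmu hD n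
  have hS := hs_SS hE A (RR chi rho)
  have h2 : Summable fun n => mu n ^ 2 := by
    have h3 := (hasSum_trc hE.pars hv hS (a := 1) le_rfl).summable
    simpa using h3
  refine ⟨fun n => ?_, fun m n h => ?_, ?_, fun a ha => ?_⟩
  · rw [hmm]
    exact inv_pos.2 (hv.pos n)
  · simp only [hmm]
    exact inv_anti₀ (hv.pos n) (hmu h)
  · simp only [hmm]
    have h3 : Filter.Tendsto (fun n => mu n ^ 2) Filter.atTop (nhds 0) :=
      h2.tendsto_atTop_zero
    have h4 : Filter.Tendsto mu Filter.atTop (nhds 0) := by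
      have h5 := (Real.continuous_sqrt.tendsto 0).comp h3
      rw [Real.sqrt_zero] at h5
      refine h5.congr fun n => ?_
      exact Real.sqrt_sq (hv.pos n).le
    have h6 : Filter.Tendsto mu Filter.atTop (nhdsWithin 0 (Set.Ioi 0)) :=
      tendsto_nhdsWithin_iff.2 ⟨h4, Filter.Eventually.of_forall hv.pos⟩
    exact tendsto_inv_nhdsGT_zero.comp h6
  · simp only [hmm, inv_inv]
    exact hasSum_trc hE.pars hv hS ha

/-- A6 in terms of forms: the derivative of the trace at a point where a complete orthonormal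
system of eigenvectors `v_k = R io g_k`, `A g_k = mu_k⁻¹ io* R R io g_k` is known.
Proof: `fderiv_trc` for `S(c) = SS io (A c) (RR chi (rho c))` (analytic by `analyticAt_SS`,
`Coer.isUnit`; `f` analytic by `analyticAt_trc`; `Coer.nng_SS`, `hs_SS`), `Eig` from
`eig_of_strong`, and `inner_fderiv_SS`:
`mu^(2a-1) (mu X - mu^2 Y) = mu^(2a) (X - mu Y)`. -/
theorem fderiv_trc_form {ι : Type*} {io : H →L[ℝ] L} {s : ι → L} {k : ι → H} {l : ι → ℝ}
    (hE : Emb io s k l) {J : Type*} [Fintype J] {chi : J → L →L[ℝ] L} (hc : Cut chi)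
    {A : E → H →L[ℝ] H} {rho : J → E → ℝ} {c₀ : E} (hA : AnalyticAt ℝ A c₀)
    (hrho : ∀ j, AnalyticAt ℝ (rho j) c₀) (hco : ∀ᶠ c in nhds c₀, Coer (A c))
    {κ : Type*} {g : κ → H} {mu : κ → ℝ} (hmu : ∀ x, 0 < mu x)
    (hg : ∀ x, A c₀ (g x) = (mu x)⁻¹ • ContinuousLinearMap.adjoint io
      (RR chi (fun j => rho j c₀) (RR chi (fun j => rho j c₀) (io (g x)))))
    (hon : Orthonormal ℝ (fun x => RR chi (fun j => rho j c₀) (io (g x))))
    (hcpl : ∀ f, (∀ x, ⟪RR chi (fun j => rho j c₀) (io (g x)), f⟫_ℝ = 0) → f = 0)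
    {a : ℕ} (ha : 2 ≤ a) (w : E) :
    HasSum (fun x => 2 * a * mu x ^ (2 * a) *
      (∑ j, fderiv ℝ (fun c => rho j c ^ 2) c₀ w * ‖chi j (io (g x))‖ ^ 2
        - mu x * ⟪fderiv ℝ A c₀ w (g x), g x⟫_ℝ))
      (fderiv ℝ (fun c => trc s (SS io (A c) (RR chi (fun j => rho j c))) a) c₀ w) := by
  have hco0 : Coer (A c₀) := hco.self_of_nhds
  have hEig : Eig (SS io (A c₀) (RR chi (fun j => rho j c₀)))
      (fun x => RR chi (fun j => rho j c₀) (io (g x))) mu :=
    ⟨hon, hcpl, hmu, fun x => eig_of_strong hco0 (hmu x).ne' (hg x)⟩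
  have h1 := fderiv_trc (S := fun c => SS io (A c) (RR chi (fun j => rho j c))) hE.pars hEig ha
    (by
      filter_upwards [hco] with c hc'
      exact ⟨hc'.nng_SS io (hc.RR_sym _), hs_SS hE _ _⟩)
    (analyticAt_SS io chi hA hrho hco0.isUnit).differentiableAt
    (analyticAt_trc hE chi hA hrho hco0.isUnit (by omega)).differentiableAt w
  refine h1.congr_fun ?_
  intro x
  rw [inner_fderiv_SS io hc hA.differentiableAt (fun j => (hrho j).differentiableAt) hco0
    (hmu x).ne' (hg x) w]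
  have h2 : mu x ^ (2 * a) = mu x ^ (2 * a - 1) * mu x := by
    rw [← pow_succ]
    congr 1
    omega
  rw [h2]
  ring

/-- The trace at such a point: `sum mu_x^(2a)`.
Proof: `hasSum_trc`, `hs_SS`, `eig_of_strong`. -/
theorem hasSum_trc_form {ι : Type*} {io : H →L[ℝ] L} {s : ι → L} {k : ι → H} {l : ι → ℝ}
    (hE : Emb io s k l) {R : L →L[ℝ] L} {A : H →L[ℝ] H} (hA : Coer A)
    {κ : Type*} {g : κ → H} {mu : κ → ℝ} (hmu : ∀ x, 0 < mu x)
    (hg : ∀ x, A (g x) = (mu x)⁻¹ • ContinuousLinearMap.adjoint io (R (R (io (g x)))))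
    (hon : Orthonormal ℝ (fun x => R (io (g x))))
    (hcpl : ∀ f, (∀ x, ⟪R (io (g x)), f⟫_ℝ = 0) → f = 0) {a : ℕ} (ha : 1 ≤ a) :
    HasSum (fun x => mu x ^ (2 * a)) (trc s (SS io A R) a) := by
  have hEig : Eig (SS io A R) (fun x => R (io (g x))) mu :=
    ⟨hon, hcpl, hmu, fun x => eig_of_strong hA (hmu x).ne' (hg x)⟩
  exact hasSum_trc hE.pars hEig (hs_SS hE A R) ha

end Pool.Agent.MP4eed4eP.PA
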