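import Pool.Agent.Lib.MP_4eed4e_an_PA.Hs
import Pool.Agent.Lib.MP_4eed4e_an_PA.Par

/-!
# Project P, block A: elementary properties of `R` and of `S = R io A⁻¹ io* R` (A2)
-/

open scoped InnerProductSpace

namespace Pool.Agent.MP4eed4eP.PA

variable {H L : Type*} [NormedAddCommGroup H] [InnerProductSpace ℝ H] [CompleteSpace H]
  [NormedAddCommGroup L] [InnerProductSpace ℝ L] [CompleteSpace L]

/-- A symmetric coercive operator is invertible (Lax-Milgram).
Proof: `B := (innerSL ℝ) ∘L A : H →L[ℝ] H →L[ℝ] ℝ`, `B g h = <A g, h>`, is coercive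
(`IsCoercive`), `IsCoercive.continuousLinearEquivOfBilin` has
`<equiv g, h> = B g h` (`continuousLinearEquivOfBilin_apply`), so the equivalence is `A`;
`ContinuousLinearEquiv` gives a unit (`ContinuousLinearMap.isUnit_iff_bijective` or the
two sided inverse). -/
theorem Coer.isUnit {A : H →L[ℝ] H} (hA : Coer A) : IsUnit A := by
  obtain ⟨c, hc, h⟩ := hA.coer
  refine ContinuousLinearMap.isUnit_of_forall_le_norm_inner_map A (c := ⟨c, hc.le⟩) hc ?_
  intro x
  change ‖x‖ ^ 2 * c ≤ ‖⟪A x, x⟫_ℝ‖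
  rw [mul_comm]
  exact (h x).trans (Real.le_norm_self _)

/-- Proof: `Ring.inverse_mul_cancel`, `Ring.mul_inverse_cancel` applied to `g`. -/
theorem Coer.inv_apply {A : H →L[ℝ] H} (hA : Coer A) (g : H) :
    Ring.inverse A (A g) = g ∧ A (Ring.inverse A g) = g := by
  constructor
  · have h1 := Ring.inverse_mul_cancel A hA.isUnit
    exact DFunLike.congr_fun h1 g
  · have h1 := Ring.mul_inverse_cancel A hA.isUnit
    exact DFunLike.congr_fun h1 g

/-- Proof: `g = A g'`, `h = A h'`. -/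
theorem Coer.inv_sym {A : H →L[ℝ] H} (hA : Coer A) (g h : H) :
    ⟪Ring.inverse A g, h⟫_ℝ = ⟪g, Ring.inverse A h⟫_ℝ := by
  have h1 := hA.sym (Ring.inverse A g) (Ring.inverse A h)
  rw [(hA.inv_apply g).2, (hA.inv_apply h).2] at h1
  exact h1.symm

/-- Proof: `g = A g'`, `<A⁻¹ g, g> = <g', A g'> >= kappa |g'|^2 > 0` if `g' /= 0`. -/
theorem Coer.inv_pos {A : H →L[ℝ] H} (hA : Coer A) {g : H} (hg : g ≠ 0) :
    0 < ⟪Ring.inverse A g, g⟫_ℝ := by
  obtain ⟨c, hc, h⟩ := hA.coer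
  have h1 := h (Ring.inverse A g)
  have h2 := hA.sym (Ring.inverse A g) (Ring.inverse A g)
  rw [(hA.inv_apply g).2] at h1 h2
  have h0 : Ring.inverse A g ≠ 0 := by
    intro h3
    have h4 := (hA.inv_apply g).2
    rw [h3, map_zero] at h4
    exact hg h4.symm
  have h5 := norm_pos_iff.2 h0
  have h6 : 0 < c * ‖Ring.inverse A g‖ ^ 2 := by positivity
  rw [← h2]
  exact h6.trans_le h1

omit [CompleteSpace L] in
private theorem Coe_RR_apply {J : Type*} [Fintype J] (chi : J → L →L[ℝ] L) (rho : J → ℝ) (f : L) :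
    RR chi rho f = ∑ j, rho j • chi j f := by
  unfold RR
  rw [sum_apply]
  rfl

private theorem Coe_SS_inner (io : H →L[ℝ] L) (A : H →L[ℝ] H) {R : L →L[ℝ] L}
    (hR : ∀ f g, ⟪R f, g⟫_ℝ = ⟪f, R g⟫_ℝ) (f g : L) :
    ⟪SS io A R f, g⟫_ℝ = ⟪Ring.inverse A (ContinuousLinearMap.adjoint io (R f)),
      ContinuousLinearMap.adjoint io (R g)⟫_ℝ := by
  change ⟪R (io (Ring.inverse A (ContinuousLinearMap.adjoint io (R f)))), g⟫_ℝ = _
  rw [hR, ContinuousLinearMap.adjoint_inner_right]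

omit [CompleteSpace L] in
/-- `R` is symmetric (sum of symmetric operators). -/
theorem Cut.RR_sym {J : Type*} [Fintype J] {chi : J → L →L[ℝ] L} (hc : Cut chi) (rho : J → ℝ)
    (f g : L) : ⟪RR chi rho f, g⟫_ℝ = ⟪f, RR chi rho g⟫_ℝ := by
  rw [Coe_RR_apply, Coe_RR_apply, sum_inner, inner_sum]
  refine Finset.sum_congr rfl fun j _ => ?_
  rw [real_inner_smul_left, real_inner_smul_right, hc.sym]

omit [CompleteSpace L] in
/-- `chi_i (R f) = rho_i chi_i f`. -/
theorem Cut.chi_RR {J : Type*} [Fintype J] {chi : J → L →L[ℝ] L} (hc : Cut chi) (rho : J → ℝ)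
    (i : J) (f : L) : chi i (RR chi rho f) = rho i • chi i f := by
  rw [Coe_RR_apply, map_sum, Finset.sum_eq_single i]
  · rw [map_smul, hc.idem]
  · intro j _ hj
    rw [map_smul, hc.orth i j hj.symm, smul_zero]
  · intro h
    exact absurd (Finset.mem_univ i) h

omit [CompleteSpace L] in
/-- `<R f, R f> = sum_j rho_j^2 |chi_j f|^2`.  Proof: `f = sum_j chi_j f` orthogonal sum,
`<chi_i f, chi_j g> = <f, chi_i chi_j g>`. -/
theorem Cut.norm_RR {J : Type*} [Fintype J] {chi : J → L →L[ℝ] L} (hc : Cut chi) (rho : J → ℝ)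
    (f : L) : ‖RR chi rho f‖ ^ 2 = ∑ j, rho j ^ 2 * ‖chi j f‖ ^ 2 := by
  rw [← real_inner_self_eq_norm_sq]
  nth_rewrite 1 [Coe_RR_apply]
  rw [sum_inner]
  refine Finset.sum_congr rfl fun j _ => ?_
  have h1 : ⟪f, chi j f⟫_ℝ = ‖chi j f‖ ^ 2 := by
    rw [← real_inner_self_eq_norm_sq, hc.sym, hc.idem]
  rw [real_inner_smul_left, hc.sym, hc.chi_RR, real_inner_smul_right, h1]
  ring

omit [CompleteSpace L] in
/-- `R` is injective for positive `rho_j`: if `R f = 0` then `chi_i f = 0` for all `i`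
(`Cut.chi_RR`), `f = sum chi_i f`. -/
theorem Cut.RR_inj {J : Type*} [Fintype J] {chi : J → L →L[ℝ] L} (hc : Cut chi) {rho : J → ℝ}
    (hr : ∀ j, 0 < rho j) {f : L} (hf : RR chi rho f = 0) : f = 0 := by
  rw [← hc.sum f]
  refine Finset.sum_eq_zero fun j _ => ?_
  have h1 := hc.chi_RR rho j f
  rw [hf, map_zero] at h1
  exact (smul_eq_zero.1 h1.symm).resolve_left (hr j).ne'

/-- `S` is symmetric and nonnegative, for symmetric `R`:
`<S f, g> = <A⁻¹ io* R f, io* R g>`; `Coer.inv_sym`, `Coer.inv_pos`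
(`ContinuousLinearMap.adjoint_inner_left / right`). -/
theorem Coer.nng_SS {A : H →L[ℝ] H} (hA : Coer A) (io : H →L[ℝ] L) {R : L →L[ℝ] L}
    (hR : ∀ f g, ⟪R f, g⟫_ℝ = ⟪f, R g⟫_ℝ) : Nng (SS io A R) := by
  refine ⟨fun f g => ?_, fun f => ?_⟩
  · have h1 := Coe_SS_inner io A hR g f
    rw [real_inner_comm] at h1
    rw [Coe_SS_inner io A hR, h1, hA.inv_sym, real_inner_comm]
  · rw [Coe_SS_inner io A hR]
    by_cases h0 : ContinuousLinearMap.adjoint io (R f) = 0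
    · rw [h0, inner_zero_right]
    · exact (hA.inv_pos h0).le

/-- `S` is injective if `io*` and `R` are: `<S f, f> = <A⁻¹ h, h>` with `h = io* R f`. -/
theorem Coer.SS_inj {A : H →L[ℝ] H} (hA : Coer A) (io : H →L[ℝ] L) {R : L →L[ℝ] L}
    (hR : ∀ f g, ⟪R f, g⟫_ℝ = ⟪f, R g⟫_ℝ) (hRi : ∀ f, R f = 0 → f = 0)
    (hio : ∀ f, ContinuousLinearMap.adjoint io f = 0 → f = 0) {f : L}
    (hf : SS io A R f = 0) : f = 0 := by
  have h1 := Coe_SS_inner io A hR f f
  rw [hf, inner_zero_left] at h1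
  refine hRi f (hio _ ?_)
  by_contra h0
  exact (hA.inv_pos h0).ne h1

/-- `S` is Hilbert-Schmidt: `S s_m = R (io (X (io* (R s_m))))`, `X = Ring.inverse A`; `hs_emb`,
`hs_comp_right` (`T = io ∘L X ∘L io*`, `B = R`), `hs_comp_left`. -/
theorem hs_SS {ι : Type*} {io : H →L[ℝ] L} {s : ι → L} {k : ι → H} {l : ι → ℝ}
    (hE : Emb io s k l) (A : H →L[ℝ] H) (R : L →L[ℝ] L) :
    Summable fun m => ‖SS io A R (s m)‖ ^ 2 := by
  have h1 := (hs_emb hE (Ring.inverse A)).1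
  have h2 := (hs_comp_right hE.pars (io ∘L Ring.inverse A ∘L ContinuousLinearMap.adjoint io) R
    h1).1
  exact (hs_comp_left ((io ∘L Ring.inverse A ∘L ContinuousLinearMap.adjoint io) ∘L R) R h2).1

end Pool.Agent.MP4eed4eP.PA
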