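import Pool.Agent.Lib.MP_4eed4e_an_PA.Df

/-!
# Project P, block A: analytic dependence of `R` and `S`
-/

open scoped InnerProductSpace

namespace Pool.Agent.MP4eed4eP.PA

variable {H L : Type*} [NormedAddCommGroup H] [InnerProductSpace ℝ H] [CompleteSpace H]
  [NormedAddCommGroup L] [InnerProductSpace ℝ L] [CompleteSpace L]
  {E : Type*} [NormedAddCommGroup E] [NormedSpace ℝ E]

omit [CompleteSpace L] in
/-- Proof: `RR chi (rho c) = sum_j rho_j(c) • chi_j`, a finite sum of analytic functions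
(`Finset.analyticAt_fun_sum`, `AnalyticAt.smul`, `analyticAt_const`). -/
theorem analyticAt_RR {J : Type*} [Fintype J] (chi : J → L →L[ℝ] L) {rho : J → E → ℝ} {c₀ : E}
    (hrho : ∀ j, AnalyticAt ℝ (rho j) c₀) :
    AnalyticAt ℝ (fun c => RR chi (fun j => rho j c)) c₀ := by
  unfold RR
  exact Finset.analyticAt_fun_sum _ fun j _ => (hrho j).fun_smul analyticAt_const

/-- Proof: `analyticAt_inverse` (`Ring.inverse` is analytic at units, `H →L[ℝ] H` is a complete
normed ring) composed with `A`. -/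
theorem analyticAt_inv {A : E → H →L[ℝ] H} {c₀ : E} (hA : AnalyticAt ℝ A c₀)
    (hU : IsUnit (A c₀)) : AnalyticAt ℝ (fun c => Ring.inverse (A c)) c₀ := by
  obtain ⟨u, hu⟩ := hU
  have h1 : AnalyticAt ℝ (Ring.inverse : (H →L[ℝ] H) → (H →L[ℝ] H)) (A c₀) := by
    rw [← hu]
    exact analyticAt_inverse u
  exact h1.comp hA

/-- Composition of analytic families of continuous linear maps. -/
theorem analyticAt_cmp {V W X : Type*} [NormedAddCommGroup V] [NormedSpace ℝ V]
    [NormedAddCommGroup W] [NormedSpace ℝ W] [NormedAddCommGroup X] [NormedSpace ℝ X]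
    {f : E → W →L[ℝ] X} {g : E → V →L[ℝ] W} {c₀ : E} (hf : AnalyticAt ℝ f c₀)
    (hg : AnalyticAt ℝ g c₀) : AnalyticAt ℝ (fun c => (f c).comp (g c)) c₀ :=
  ((ContinuousLinearMap.compL ℝ V W X).analyticAt_bilinear (f c₀, g c₀)).comp₂ hf hg

/-- Proof: composition of continuous linear maps is a bounded bilinear map
(`ContinuousLinearMap.compL`), `AnalyticAt.clm_comp` or `ContinuousLinearMap.analyticAt_bilinear`,
`analyticAt_RR`, `analyticAt_inv`. -/
theorem analyticAt_SS (io : H →L[ℝ] L) {J : Type*} [Fintype J] (chi : J → L →L[ℝ] L)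
    {A : E → H →L[ℝ] H} {rho : J → E → ℝ} {c₀ : E} (hA : AnalyticAt ℝ A c₀)
    (hrho : ∀ j, AnalyticAt ℝ (rho j) c₀) (hU : IsUnit (A c₀)) :
    AnalyticAt ℝ (fun c => SS io (A c) (RR chi (fun j => rho j c))) c₀ := by
  unfold SS
  have hR := analyticAt_RR chi hrho
  have hI := analyticAt_inv hA hU
  exact analyticAt_cmp hR (analyticAt_cmp analyticAt_const
    (analyticAt_cmp hI (analyticAt_cmp analyticAt_const hR)))

end Pool.Agent.MP4eed4eP.PA
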