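import Pool.Agent.Lib.MP_4eed4e_an_PA.Df

/-!
# Project P, block A: the maps `Z ↦ (Z f_m)_m` of `l ^ 2`
-/

namespace Pool.Agent.MP4eed4eP.PA

private theorem Pst_two : 0 < (2 : ENNReal).toReal := by norm_num

private theorem Pst_term {L : Type*} [NormedAddCommGroup L] [InnerProductSpace ℝ L]
    (Z : L →L[ℝ] L) (x : L) :
    ‖Z x‖ ^ (2 : ENNReal).toReal ≤ ‖Z‖ ^ (2 : ENNReal).toReal * ‖x‖ ^ (2 : ENNReal).toReal := by
  rw [← Real.mul_rpow (norm_nonneg _) (norm_nonneg _)]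
  exact Real.rpow_le_rpow (norm_nonneg _) (Z.le_opNorm x) Pst_two.le

private theorem Pst_mem {ι L : Type*} [NormedAddCommGroup L] [InnerProductSpace ℝ L]
    (Z : L →L[ℝ] L) (f : lp (fun _ : ι => L) 2) : Memℓp (fun m => Z (f m)) 2 := by
  refine memℓp_gen (Summable.of_nonneg_of_le (fun m => by positivity)
    (fun m => Pst_term Z (f m)) ?_)
  exact ((memℓp_gen_iff Pst_two).1 f.2).mul_left _

/-- The bilinear map. -/
private noncomputable def Pst_lin (ι L : Type*) [NormedAddCommGroup L] [InnerProductSpace ℝ L] :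
    (L →L[ℝ] L) →ₗ[ℝ] lp (fun _ : ι => L) 2 →ₗ[ℝ] lp (fun _ : ι => L) 2 :=
  LinearMap.mk₂ ℝ (fun Z f => ⟨fun m => Z (f m), Pst_mem Z f⟩)
    (fun Z Z' f => by ext m; rfl)
    (fun c Z f => by ext m; rfl)
    (fun Z f g => by ext m; exact map_add Z (f m) (g m))
    (fun c Z f => by ext m; exact map_smul Z c (f m))

private theorem Pst_norm {ι L : Type*} [NormedAddCommGroup L] [InnerProductSpace ℝ L]
    (Z : L →L[ℝ] L) (f : lp (fun _ : ι => L) 2) :
    ‖Pst_lin ι L Z f‖ ≤ ‖Z‖ * ‖f‖ := by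
  refine lp.norm_le_of_forall_sum_le Pst_two (by positivity) fun s => ?_
  rw [Real.mul_rpow (norm_nonneg _) (norm_nonneg _)]
  refine (Finset.sum_le_sum fun m _ => Pst_term Z (f m)).trans ?_
  rw [← Finset.mul_sum]
  exact mul_le_mul_of_nonneg_left (lp.sum_rpow_le_norm_rpow Pst_two f s) (by positivity)

/-- The bounded linear map `Z ↦ (f ↦ (Z f_m)_m)`.
Proof: `|Z f_m| <= |Z| |f_m|`, so `(Z f_m)` is in `l ^ 2` with norm `<= |Z| |f|`;
`LinearMap.mkContinuous₂ _ 1`, bilinear componentwise. -/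
theorem exists_post (ι : Type*) (L : Type*) [NormedAddCommGroup L] [InnerProductSpace ℝ L] :
    ∃ P : (L →L[ℝ] L) →L[ℝ] lp (fun _ : ι => L) 2 →L[ℝ] lp (fun _ : ι => L) 2,
      ∀ (Z : L →L[ℝ] L) (f : lp (fun _ : ι => L) 2) (m : ι), (P Z f : ι → L) m = Z (f m) := by
  refine ⟨(Pst_lin ι L).mkContinuous₂ 1 fun Z f => ?_, fun Z f m => rfl⟩
  rw [one_mul]
  exact Pst_norm Z f

end Pool.Agent.MP4eed4eP.PA
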