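import Pool.Agent.Lib.MP_4eed4e_an_PA.Tht
import Pool.Agent.Lib.MP_4eed4e_an_PA.Pst
import Pool.Agent.Lib.MP_4eed4e_an_PA.AnaA

/-!
# Project P, block A: analytic dependence of the traces (A5)
-/

open scoped InnerProductSpace

namespace Pool.Agent.MP4eed4eP.PA

variable {H L : Type*} [NormedAddCommGroup H] [InnerProductSpace ℝ H] [CompleteSpace H]
  [NormedAddCommGroup L] [InnerProductSpace ℝ L] [CompleteSpace L]
  {E : Type*} [NormedAddCommGroup E] [NormedSpace ℝ E]

omit [CompleteSpace H] [CompleteSpace L] [NormedAddCommGroup H] [InnerProductSpace ℝ H]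
  [NormedAddCommGroup L] [InnerProductSpace ℝ L] in
private theorem Ana_clm {V W : Type*} [NormedAddCommGroup V] [NormedSpace ℝ V]
    [NormedAddCommGroup W] [NormedSpace ℝ W] (P : V →L[ℝ] W) {S : E → V} {c₀ : E}
    (hS : AnalyticAt ℝ S c₀) : AnalyticAt ℝ (fun c => P (S c)) c₀ :=
  (P.analyticAt (S c₀)).comp hS

private theorem Ana_pow {W : Type*} [NormedAddCommGroup W] [NormedSpace ℝ W]
    {T : E → W →L[ℝ] W} {f : E → W} {c₀ : E} (hT : AnalyticAt ℝ T c₀)
    (hf : AnalyticAt ℝ f c₀) (n : ℕ) : AnalyticAt ℝ (fun c => ((T c) ^ n) (f c)) c₀ := by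
  induction n with
  | zero => simpa using hf
  | succ n ih =>
    have h1 : (fun c => ((T c) ^ (n + 1)) (f c)) = fun c => (T c) (((T c) ^ n) (f c)) := by
      funext c
      rw [pow_succ']
      rfl
    rw [h1]
    exact (ContinuousLinearMap.analyticAt_bilinear (ContinuousLinearMap.id ℝ (W →L[ℝ] W))
      (T c₀, ((T c₀) ^ n) (f c₀))).comp₂ hT ih

/-- A5.  The traces are analytic.
Proof.  Let `Θ_j` be the map of `exists_theta hE (chi j)` and `P` that of `exists_post`.  Put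
`X(c) = Ring.inverse (A c)`, `S(c) = SS io (A c) (RR ..)`.  Then
`S(c) s_m = sum_i sum_j rho_i rho_j chi_i (io (X (io* (chi_j s_m))))`, so
`F1(c) := sum_i sum_j rho_i(c) rho_j(c) • P (chi_i) (Θ_j (X c))` in `l ^ 2 (ι; L)` has components
`F1(c) m = S(c) s_m` (extensionality, evaluation is additive), and
`F(c) := (P (S c)) ^ (a - 1) (F1 c)` has components `F(c) m = S(c) ^ a s_m`
(`(P Z) ^ n f` has components `Z ^ n (f m)`, induction on `n`).
`F` is analytic at `c₀`: `P ∘ S` analytic, powers (`AnalyticAt.pow`), application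
(`AnalyticAt.clm_apply`).  `trc s (S c) a = sum' |F(c) m|^2 = <F c, F c>` (`lp.inner_eq_tsum`,
`real_inner_self_eq_norm_sq`), analytic as a bounded bilinear map of `F c` (`innerSL ℝ`,
`ContinuousLinearMap.analyticAt_bilinear`; or `AnalyticAt.inner`). -/
theorem analyticAt_trc {ι : Type*} {io : H →L[ℝ] L} {s : ι → L} {k : ι → H} {l : ι → ℝ}
    (hE : Emb io s k l) {J : Type*} [Fintype J] (chi : J → L →L[ℝ] L)
    {A : E → H →L[ℝ] H} {rho : J → E → ℝ} {c₀ : E} (hA : AnalyticAt ℝ A c₀)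
    (hrho : ∀ j, AnalyticAt ℝ (rho j) c₀) (hU : IsUnit (A c₀)) {a : ℕ} (ha : 1 ≤ a) :
    AnalyticAt ℝ (fun c => trc s (SS io (A c) (RR chi (fun j => rho j c))) a) c₀ := by
  classical
  choose Θ hΘ using fun j => exists_theta hE (chi j)
  obtain ⟨P, hP⟩ := exists_post ι L
  obtain ⟨X, hXd⟩ : ∃ X : E → H →L[ℝ] H, X = fun c => Ring.inverse (A c) := ⟨_, rfl⟩
  obtain ⟨S, hSd⟩ : ∃ S : E → L →L[ℝ] L, S = fun c => SS io (A c) (RR chi (fun j => rho j c)) :=
    ⟨_, rfl⟩
  have hX : AnalyticAt ℝ X c₀ := by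
    rw [hXd]
    exact analyticAt_inv hA hU
  have hS : AnalyticAt ℝ S c₀ := by
    rw [hSd]
    exact analyticAt_SS io chi hA hrho hU
  obtain ⟨F1, hF1d⟩ : ∃ F1 : E → lp (fun _ : ι => L) 2,
      F1 = fun c => ∑ i, ∑ j, (rho i c * rho j c) • P (chi i) (Θ j (X c)) := ⟨_, rfl⟩
  have hF1a : AnalyticAt ℝ F1 c₀ := by
    rw [hF1d]
    refine Finset.analyticAt_fun_sum _ fun i _ => Finset.analyticAt_fun_sum _ fun j _ => ?_
    have h1 : AnalyticAt ℝ (fun c => ((P (chi i)).comp (Θ j)) (X c)) c₀ :=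
      (((P (chi i)).comp (Θ j)).analyticAt (X c₀)).comp hX
    exact ((hrho i).mul (hrho j)).smul h1
  have hPS : AnalyticAt ℝ (fun c => P (S c)) c₀ := by
    have h1 := Ana_clm (V := L →L[ℝ] L)
      (W := lp (fun _ : ι => L) 2 →L[ℝ] lp (fun _ : ι => L) 2) P hS
    exact h1
  have hFa : AnalyticAt ℝ (fun c => ((P (S c)) ^ (a - 1)) (F1 c)) c₀ :=
    Ana_pow hPS hF1a (a - 1)
  have hF1 : ∀ c m, (F1 c : ι → L) m = S c (s m) := by
    intro c m
    have hR : ∀ f, RR chi (fun j => rho j c) f = ∑ j, rho j c • chi j f := by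
      intro f
      simp [RR]
    have e1 : (F1 c : ι → L) m = ∑ i, ∑ j, (rho i c * rho j c) • chi i
        (io (X c (ContinuousLinearMap.adjoint io (chi j (s m))))) := by
      rw [hF1d]
      simp only [lp.coeFn_sum, Finset.sum_apply, lp.coeFn_smul, Pi.smul_apply, hP, hΘ]
    rw [e1, hSd]
    show _ = RR chi (fun j => rho j c) (io (Ring.inverse (A c)
      (ContinuousLinearMap.adjoint io (RR chi (fun j => rho j c) (s m)))))
    rw [hR, hR, hXd]
    refine Finset.sum_congr rfl fun i _ => ?_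
    simp only [map_sum, map_smul, Finset.smul_sum, smul_smul]
  have hpow : ∀ (Z : L →L[ℝ] L) (n : ℕ) (f : lp (fun _ : ι => L) 2) (m : ι),
      (((P Z) ^ n) f : ι → L) m = (Z ^ n) (f m) := by
    intro Z n
    induction n with
    | zero => intro f m; simp
    | succ n ih =>
      intro f m
      rw [pow_succ, pow_succ]
      show (((P Z) ^ n) (P Z f) : ι → L) m = (Z ^ n) (Z (f m))
      rw [ih, hP]
  have htr : (fun c => trc s (SS io (A c) (RR chi (fun j => rho j c))) a) = fun c =>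
      ⟪((P (S c)) ^ (a - 1)) (F1 c), ((P (S c)) ^ (a - 1)) (F1 c)⟫_ℝ := by
    funext c
    rw [lp.inner_eq_tsum]
    show ∑' m, ‖((SS io (A c) (RR chi (fun j => rho j c))) ^ a) (s m)‖ ^ 2 = _
    refine tsum_congr fun m => ?_
    have hSc : SS io (A c) (RR chi (fun j => rho j c)) = S c := by rw [hSd]
    have h2 : (S c ^ (a - 1)) (S c (s m)) = (S c ^ a) (s m) := by
      have h3 : S c ^ a = S c ^ (a - 1) * S c := by
        rw [← pow_succ, Nat.sub_add_cancel ha]
      rw [h3]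
      rfl
    rw [hpow, hF1, h2, real_inner_self_eq_norm_sq, hSc]
  rw [htr]
  exact (ContinuousLinearMap.analyticAt_bilinear (innerSL ℝ) (_, _)).comp₂ hFa hFa

end Pool.Agent.MP4eed4eP.PA
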