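import Mathlib

/-!
# Project P (MP_4eed4e_an), block A: the abstract Hilbert space part, definitions

`H`, `L` are real Hilbert spaces.  `Emb io s k l`: a bounded operator `io : H → L` with a Parseval
frame `s` of `L` such that `io* s_m = l_m k_m`, where `k` has Bessel bound `1` in `H` and
`sum l_m ^ 4 < oo`.  `Cut chi`: finitely many symmetric orthogonal idempotents with sum `1`.
`SS io A R = R io A⁻¹ io* R`, `trc s S a = sum_m |S ^ a s_m| ^ 2`.
-/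

open scoped InnerProductSpace

namespace Pool.Agent.MP4eed4eP.PA

variable {H L : Type*} [NormedAddCommGroup H] [InnerProductSpace ℝ H] [CompleteSpace H]
  [NormedAddCommGroup L] [InnerProductSpace ℝ L] [CompleteSpace L]

omit [CompleteSpace L] in
/-- Parseval frame: `sum_m <s_m, f> ^ 2 = |f| ^ 2` for every `f`. -/
def Pars {ι : Type*} (s : ι → L) : Prop :=
  ∀ f : L, HasSum (fun m => ⟪s m, f⟫_ℝ ^ 2) (‖f‖ ^ 2)

/-- The data of a compact embedding given by a frame. -/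
structure Emb {ι : Type*} (io : H →L[ℝ] L) (s : ι → L) (k : ι → H) (l : ι → ℝ) : Prop where
  /-- `s` is a Parseval frame of `L` -/
  pars : Pars s
  /-- `io* s_m = l_m k_m` -/
  adj : ∀ m, ContinuousLinearMap.adjoint io (s m) = l m • k m
  /-- Bessel inequality for `k` -/
  bess : ∀ (g : H) (t : Finset ι), ∑ m ∈ t, ⟪k m, g⟫_ℝ ^ 2 ≤ ‖g‖ ^ 2
  /-- `sum l_m ^ 4 < oo` -/
  l4 : Summable fun m => l m ^ 4

omit [CompleteSpace L] in
/-- Finitely many symmetric orthogonal idempotents with sum `1`. -/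
structure Cut {J : Type*} [Fintype J] (chi : J → L →L[ℝ] L) : Prop where
  /-- symmetric -/
  sym : ∀ j f g, ⟪chi j f, g⟫_ℝ = ⟪f, chi j g⟫_ℝ
  /-- idempotent -/
  idem : ∀ j f, chi j (chi j f) = chi j f
  /-- orthogonal -/
  orth : ∀ i j, i ≠ j → ∀ f, chi i (chi j f) = 0
  /-- sum equal to one -/
  sum : ∀ f, ∑ j, chi j f = f

omit [CompleteSpace H] in
/-- Symmetric and coercive. -/
structure Coer (A : H →L[ℝ] H) : Prop where
  /-- symmetric -/
  sym : ∀ g h, ⟪A g, h⟫_ℝ = ⟪g, A h⟫_ℝ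
  /-- coercive -/
  coer : ∃ κ > 0, ∀ g, κ * ‖g‖ ^ 2 ≤ ⟪A g, g⟫_ℝ

omit [CompleteSpace L] in
/-- Symmetric and nonnegative. -/
structure Nng (S : L →L[ℝ] L) : Prop where
  /-- symmetric -/
  sym : ∀ f g, ⟪S f, g⟫_ℝ = ⟪f, S g⟫_ℝ
  /-- nonnegative -/
  nng : ∀ f, 0 ≤ ⟪S f, f⟫_ℝ

omit [CompleteSpace L] in
/-- A complete orthonormal system of eigenvectors of `S` with positive eigenvalues. -/
structure Eig {κ : Type*} (S : L →L[ℝ] L) (v : κ → L) (mu : κ → ℝ) : Prop where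
  /-- orthonormal -/
  on : Orthonormal ℝ v
  /-- complete -/
  cpl : ∀ f, (∀ k, ⟪v k, f⟫_ℝ = 0) → f = 0
  /-- positive eigenvalues -/
  pos : ∀ k, 0 < mu k
  /-- eigenvectors -/
  eig : ∀ k, S (v k) = mu k • v k

omit [CompleteSpace L] in
/-- The weight operator `R = sum rho_j chi_j`. -/
noncomputable def RR {J : Type*} [Fintype J] (chi : J → L →L[ℝ] L) (rho : J → ℝ) : L →L[ℝ] L :=
  ∑ j, rho j • chi j

/-- `S = R io A⁻¹ io* R` (`Ring.inverse A = A⁻¹` if `A` is invertible, `0` if not). -/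
noncomputable def SS (io : H →L[ℝ] L) (A : H →L[ℝ] H) (R : L →L[ℝ] L) : L →L[ℝ] L :=
  R ∘L io ∘L Ring.inverse A ∘L ContinuousLinearMap.adjoint io ∘L R

omit [CompleteSpace L] in
/-- `trc s S a = sum_m |S ^ a s_m| ^ 2`. -/
noncomputable def trc {ι : Type*} (s : ι → L) (S : L →L[ℝ] L) (a : ℕ) : ℝ :=
  ∑' m, ‖(S ^ a) (s m)‖ ^ 2

omit [CompleteSpace H] [CompleteSpace L] in
/-- The numbers `inf {r | exists V <= D0, dim V = n, <A w, w> <= r |R io w| ^ 2 on V}`. -/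
noncomputable def mm (io : H →L[ℝ] L) (A : H →L[ℝ] H) (R : L →L[ℝ] L) (D0 : Submodule ℝ H)
    (n : ℕ) : ℝ :=
  sInf {r : ℝ | ∃ V : Submodule ℝ H, V ≤ D0 ∧ Module.finrank ℝ V = n ∧
    ∀ w ∈ V, ⟪A w, w⟫_ℝ ≤ r * ‖R (io w)‖ ^ 2}

end Pool.Agent.MP4eed4eP.PA
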