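import Pool.Agent.Lib.MP_4eed4e_an_PA.Df

/-!
# Project P, block A: the operators `io X io*` are Hilbert-Schmidt (A1)
-/

open scoped InnerProductSpace

namespace Pool.Agent.MP4eed4eP.PA

variable {H L : Type*} [NormedAddCommGroup H] [InnerProductSpace ℝ H] [CompleteSpace H]
  [NormedAddCommGroup L] [InnerProductSpace ℝ L] [CompleteSpace L]

/-- `|k_m| <= 1`: the Bessel inequality for `g = k_m`, `t = {m}` gives `|k_m|^4 <= |k_m|^2`. -/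
theorem Emb.norm_k_le {ι : Type*} {io : H →L[ℝ] L} {s : ι → L} {k : ι → H} {l : ι → ℝ}
    (hE : Emb io s k l) (m : ι) : ‖k m‖ ≤ 1 := by
  have h1 := hE.bess (k m) {m}
  rw [Finset.sum_singleton, real_inner_self_eq_norm_sq] at h1
  by_contra h
  have h2 : 1 < ‖k m‖ := not_le.1 h
  have h3 : 0 < ‖k m‖ ^ 2 := by positivity
  have h4 : 1 < ‖k m‖ ^ 2 := by nlinarith
  nlinarith

/-- A1.  `sum_m |io X io* s_m|^2 <= |X|^2 sum l_m^4`.
Proof.  Put `q m n = <X k_m, k_n>`.  Parseval: `|io X io* s_m|^2 = sum_n <s_n, io X io* s_m>^2`,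
and `<s_n, io X io* s_m> = <io* s_n, X io* s_m> = l_n l_m q m n`.
`2 l_m^2 l_n^2 <= l_m^4 + l_n^4`, so `(l_n l_m q)^2 <= (1/2) (l_m^4 q^2 + l_n^4 q^2)`.
`sum_n q(m,n)^2 <= |X k_m|^2 <= |X|^2` (Bessel for `g = X k_m`, `|k_m| <= 1`), and
`sum_m q(m,n)^2 = sum_m <k_m, X* k_n>^2 <= |X* k_n|^2 <= |X|^2`.  Summing (Tonelli; in `ENNReal`,
or for a finite set of `m` and of `n` and then with `sum_le_of_...`):
`sum_m |io X io* s_m|^2 <= (1/2) (|X|^2 sum l^4 + |X|^2 sum l^4)`.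
(Finite version: for finite sets `t`, `u`,
`sum_{m in t} sum_{n in u} (l_n l_m q)^2 <= |X|^2 sum l^4`; let `u` grow, then `t`;
`summable_of_sum_le`, `Real.tsum_le_of_sum_le` or `tsum_le_of_sum_le`.) -/
theorem hs_emb {ι : Type*} {io : H →L[ℝ] L} {s : ι → L} {k : ι → H} {l : ι → ℝ}
    (hE : Emb io s k l) (X : H →L[ℝ] H) :
    (Summable fun m => ‖io (X (ContinuousLinearMap.adjoint io (s m)))‖ ^ 2) ∧
      ∑' m, ‖io (X (ContinuousLinearMap.adjoint io (s m)))‖ ^ 2 ≤ ‖X‖ ^ 2 * ∑' m, l m ^ 4 := by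
  obtain ⟨q, hq⟩ : ∃ q : ι → ι → ℝ, ∀ m n, q m n = ⟪k n, X (k m)⟫_ℝ := ⟨_, fun _ _ => rfl⟩
  obtain ⟨T, hT⟩ : ∃ T, T = ∑' m, l m ^ 4 := ⟨_, rfl⟩
  have hnn : ∀ m, 0 ≤ l m ^ 4 := fun m => by positivity
  have hT' : ∀ t : Finset ι, ∑ m ∈ t, l m ^ 4 ≤ T := by
    intro t
    rw [hT]
    exact hE.l4.sum_le_tsum t fun m _ => hnn m
  have hX : ∀ m, ‖X (k m)‖ ^ 2 ≤ ‖X‖ ^ 2 := by
    intro m
    have h1 : ‖X (k m)‖ ≤ ‖X‖ := (X.le_opNorm (k m)).trans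
      (mul_le_of_le_one_right (norm_nonneg X) (hE.norm_k_le m))
    exact pow_le_pow_left₀ (norm_nonneg _) h1 2
  have hX' : ∀ n, ‖ContinuousLinearMap.adjoint X (k n)‖ ^ 2 ≤ ‖X‖ ^ 2 := by
    intro n
    have h0 : ‖ContinuousLinearMap.adjoint X‖ = ‖X‖ :=
      ContinuousLinearMap.adjoint.norm_map X
    have h1 : ‖ContinuousLinearMap.adjoint X (k n)‖ ≤ ‖X‖ :=
      ((ContinuousLinearMap.adjoint X).le_opNorm (k n)).trans (by
        rw [h0]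
        exact mul_le_of_le_one_right (norm_nonneg X) (hE.norm_k_le n))
    exact pow_le_pow_left₀ (norm_nonneg _) h1 2
  have hin : ∀ m n, ⟪s n, io (X (ContinuousLinearMap.adjoint io (s m)))⟫_ℝ =
      l n * l m * q m n := by
    intro m n
    rw [← ContinuousLinearMap.adjoint_inner_left, hE.adj, hE.adj, map_smul,
      real_inner_smul_left, real_inner_smul_right, hq]
    ring
  have hs : ∀ m, HasSum (fun n => (l n * l m * q m n) ^ 2)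
      (‖io (X (ContinuousLinearMap.adjoint io (s m)))‖ ^ 2) := by
    intro m
    have h1 := hE.pars (io (X (ContinuousLinearMap.adjoint io (s m))))
    simp only [hin] at h1
    exact h1
  have hq1 : ∀ m (u : Finset ι), ∑ n ∈ u, q m n ^ 2 ≤ ‖X‖ ^ 2 := by
    intro m u
    simp only [hq]
    exact (hE.bess (X (k m)) u).trans (hX m)
  have hq2 : ∀ n (t : Finset ι), ∑ m ∈ t, q m n ^ 2 ≤ ‖X‖ ^ 2 := by
    intro n t
    have h1 : ∀ m, q m n = ⟪k m, ContinuousLinearMap.adjoint X (k n)⟫_ℝ := by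
      intro m
      rw [hq, ContinuousLinearMap.adjoint_inner_right, real_inner_comm]
    simp only [h1]
    exact (hE.bess _ t).trans (hX' n)
  have hfin : ∀ t u : Finset ι,
      ∑ n ∈ u, ∑ m ∈ t, (l n * l m * q m n) ^ 2 ≤ ‖X‖ ^ 2 * T := by
    intro t u
    have h1 : ∀ n m, (l n * l m * q m n) ^ 2 ≤
        (l m ^ 4 * q m n ^ 2 + l n ^ 4 * q m n ^ 2) / 2 := by
      intro n m
      nlinarith [mul_nonneg (sq_nonneg (l m ^ 2 - l n ^ 2)) (sq_nonneg (q m n))]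
    have h2 : ∑ n ∈ u, ∑ m ∈ t, l m ^ 4 * q m n ^ 2 ≤ ‖X‖ ^ 2 * T := by
      rw [Finset.sum_comm]
      calc ∑ m ∈ t, ∑ n ∈ u, l m ^ 4 * q m n ^ 2 ≤ ∑ m ∈ t, l m ^ 4 * ‖X‖ ^ 2 := by
            refine Finset.sum_le_sum fun m _ => ?_
            rw [← Finset.mul_sum]
            exact mul_le_mul_of_nonneg_left (hq1 m u) (hnn m)
        _ = ‖X‖ ^ 2 * ∑ m ∈ t, l m ^ 4 := by rw [← Finset.sum_mul, mul_comm]
        _ ≤ ‖X‖ ^ 2 * T := mul_le_mul_of_nonneg_left (hT' t) (sq_nonneg _)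
    have h3 : ∑ n ∈ u, ∑ m ∈ t, l n ^ 4 * q m n ^ 2 ≤ ‖X‖ ^ 2 * T := by
      calc ∑ n ∈ u, ∑ m ∈ t, l n ^ 4 * q m n ^ 2 ≤ ∑ n ∈ u, l n ^ 4 * ‖X‖ ^ 2 := by
            refine Finset.sum_le_sum fun n _ => ?_
            rw [← Finset.mul_sum]
            exact mul_le_mul_of_nonneg_left (hq2 n t) (hnn n)
        _ = ‖X‖ ^ 2 * ∑ n ∈ u, l n ^ 4 := by rw [← Finset.sum_mul, mul_comm]
        _ ≤ ‖X‖ ^ 2 * T := mul_le_mul_of_nonneg_left (hT' u) (sq_nonneg _)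
    calc ∑ n ∈ u, ∑ m ∈ t, (l n * l m * q m n) ^ 2 ≤
          ∑ n ∈ u, ∑ m ∈ t, (l m ^ 4 * q m n ^ 2 + l n ^ 4 * q m n ^ 2) / 2 :=
            Finset.sum_le_sum fun n _ => Finset.sum_le_sum fun m _ => h1 n m
      _ = (∑ n ∈ u, ∑ m ∈ t, l m ^ 4 * q m n ^ 2 +
            ∑ n ∈ u, ∑ m ∈ t, l n ^ 4 * q m n ^ 2) / 2 := by
          simp only [← Finset.sum_div, Finset.sum_add_distrib]
      _ ≤ ‖X‖ ^ 2 * T := by linarith
  have hle : ∀ t : Finset ι,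
      ∑ m ∈ t, ‖io (X (ContinuousLinearMap.adjoint io (s m)))‖ ^ 2 ≤ ‖X‖ ^ 2 * T := by
    intro t
    exact hasSum_le_of_sum_le (hasSum_sum fun m _ => hs m) (hfin t)
  rw [← hT]
  have hsm : Summable fun m => ‖io (X (ContinuousLinearMap.adjoint io (s m)))‖ ^ 2 :=
    summable_of_sum_le (fun m => sq_nonneg _) hle
  exact ⟨hsm, hsm.tsum_le_of_sum_le hle⟩

end Pool.Agent.MP4eed4eP.PA
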