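import Pool.Agent.Lib.MP_4eed4e_an_PA.Par
import Pool.Agent.Lib.MP_4eed4e_an_PA.Hs
import Pool.Agent.Lib.MP_4eed4e_an_PA.Pst
import Pool.Agent.Lib.MP_4eed4e_an_PA.AnaA

/-!
# Project P, block A: analytic dependence of the traces, general `R`
-/

open scoped InnerProductSpace

namespace Pool.Agent.MP4eed4eP.PA

variable {H L : Type*} [NormedAddCommGroup H] [InnerProductSpace ℝ H] [CompleteSpace H]
  [NormedAddCommGroup L] [InnerProductSpace ℝ L] [CompleteSpace L]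
  {E : Type*} [NormedAddCommGroup E] [NormedSpace ℝ E]

/-- The bounded bilinear map `(X, B) ↦ (io X io* B s_m)_m` into `l ^ 2 (ι; L)`.
Proof: the proof of `exists_theta` in Tht.lean (square summability with
`sum_m |io X io* B s_m|^2 <= |B|^2 |X|^2 sum l^4` from `hs_emb` and `hs_comp_right`, so the norm
in `lp _ 2` is `<= sqrt (sum l^4) |X| |B|`), now also linear in `B`:
`LinearMap.mkContinuous₂ (LinearMap.mk₂ ℝ f _ _ _ _) C _`. -/
theorem exists_theta2 {ι : Type*} {io : H →L[ℝ] L} {s : ι → L} {k : ι → H} {l : ι → ℝ}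
    (hE : Emb io s k l) :
    ∃ Θ : (H →L[ℝ] H) →L[ℝ] (L →L[ℝ] L) →L[ℝ] lp (fun _ : ι => L) 2,
      ∀ X B m, (Θ X B : ι → L) m = io (X (ContinuousLinearMap.adjoint io (B (s m)))) := by
  have h2 : (2 : ENNReal).toReal = 2 := by norm_num
  have key : ∀ (X : H →L[ℝ] H) (B : L →L[ℝ] L),
      (Summable fun m => ‖io (X (ContinuousLinearMap.adjoint io (B (s m))))‖ ^ 2) ∧
        ∑' m, ‖io (X (ContinuousLinearMap.adjoint io (B (s m))))‖ ^ 2 ≤
          ‖B‖ ^ 2 * (‖X‖ ^ 2 * ∑' m, l m ^ 4) := by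
    intro X B
    obtain ⟨h3, h4⟩ := hs_emb hE X
    obtain ⟨h5, h6⟩ := hs_comp_right hE.pars
      (io ∘L X ∘L ContinuousLinearMap.adjoint io) B h3
    exact ⟨h5, h6.trans (mul_le_mul_of_nonneg_left h4 (sq_nonneg _))⟩
  have hmem : ∀ (X : H →L[ℝ] H) (B : L →L[ℝ] L),
      Memℓp (fun m => io (X (ContinuousLinearMap.adjoint io (B (s m))))) 2 := by
    intro X B
    apply memℓp_gen
    rw [h2]
    simpa only [Real.rpow_two] using (key X B).1
  let Θ0 : (H →L[ℝ] H) →ₗ[ℝ] (L →L[ℝ] L) →ₗ[ℝ] lp (fun _ : ι => L) 2 :=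
    LinearMap.mk₂ ℝ
      (fun X B => ⟨fun m => io (X (ContinuousLinearMap.adjoint io (B (s m)))), hmem X B⟩)
      (by
        intro X X' B
        apply lp.ext
        funext m
        simp)
      (by
        intro c X B
        apply lp.ext
        funext m
        simp)
      (by
        intro X B B'
        apply lp.ext
        funext m
        simp)
      (by
        intro c X B
        apply lp.ext
        funext m
        simp)
  have hΘ0 : ∀ X B m, (Θ0 X B : ι → L) m = io (X (ContinuousLinearMap.adjoint io (B (s m)))) :=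
    fun _ _ _ => rfl
  have hl : 0 ≤ ∑' m, l m ^ 4 := tsum_nonneg fun m => by positivity
  refine ⟨Θ0.mkContinuous₂ (Real.sqrt (∑' m, l m ^ 4)) ?_, hΘ0⟩
  intro X B
  have h3 : ‖Θ0 X B‖ ^ 2 =
      ∑' m, ‖io (X (ContinuousLinearMap.adjoint io (B (s m))))‖ ^ 2 := by
    have h4 := lp.norm_rpow_eq_tsum (p := 2) (by rw [h2]; norm_num) (Θ0 X B)
    rw [h2] at h4
    simp only [Real.rpow_two] at h4
    exact h4
  have h5 : ‖Θ0 X B‖ ^ 2 ≤ (Real.sqrt (∑' m, l m ^ 4) * ‖X‖ * ‖B‖) ^ 2 := by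
    rw [h3, mul_pow, mul_pow, Real.sq_sqrt hl]
    refine (key X B).2.trans (le_of_eq ?_)
    ring
  exact (pow_le_pow_iff_left₀ (norm_nonneg _) (by positivity) two_ne_zero).1 h5

/-- Proof: composition of continuous linear maps (`analyticAt_cmp` of AnaA.lean or
`ContinuousLinearMap.compL`), `analyticAt_inv`. -/
theorem analyticAt_SSG (io : H →L[ℝ] L) {A : E → H →L[ℝ] H} {R : E → L →L[ℝ] L} {c₀ : E}
    (hA : AnalyticAt ℝ A c₀) (hR : AnalyticAt ℝ R c₀) (hU : IsUnit (A c₀)) :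
    AnalyticAt ℝ (fun c => SS io (A c) (R c)) c₀ := by
  unfold SS
  have hI := analyticAt_inv hA hU
  exact analyticAt_cmp hR (analyticAt_cmp analyticAt_const
    (analyticAt_cmp hI (analyticAt_cmp analyticAt_const hR)))

omit [CompleteSpace H] [CompleteSpace L] [NormedAddCommGroup H] [InnerProductSpace ℝ H]
  [NormedAddCommGroup L] [InnerProductSpace ℝ L] in
private theorem GAna_clm {V W : Type*} [NormedAddCommGroup V] [NormedSpace ℝ V]
    [NormedAddCommGroup W] [NormedSpace ℝ W] (P : V →L[ℝ] W) {S : E → V} {c₀ : E}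
    (hS : AnalyticAt ℝ S c₀) : AnalyticAt ℝ (fun c => P (S c)) c₀ :=
  (P.analyticAt (S c₀)).comp hS

private theorem GAna_app {V W : Type*} [NormedAddCommGroup V] [NormedSpace ℝ V]
    [NormedAddCommGroup W] [NormedSpace ℝ W] {T : E → V →L[ℝ] W} {f : E → V} {c₀ : E}
    (hT : AnalyticAt ℝ T c₀) (hf : AnalyticAt ℝ f c₀) :
    AnalyticAt ℝ (fun c => (T c) (f c)) c₀ :=
  (ContinuousLinearMap.analyticAt_bilinear (ContinuousLinearMap.id ℝ (V →L[ℝ] W))
      (T c₀, f c₀)).comp₂ hT hf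

private theorem GAna_pow {W : Type*} [NormedAddCommGroup W] [NormedSpace ℝ W]
    {T : E → W →L[ℝ] W} {f : E → W} {c₀ : E} (hT : AnalyticAt ℝ T c₀)
    (hf : AnalyticAt ℝ f c₀) (n : ℕ) : AnalyticAt ℝ (fun c => ((T c) ^ n) (f c)) c₀ := by
  induction n with
  | zero => simpa using hf
  | succ n ih =>
    have h1 : (fun c => ((T c) ^ (n + 1)) (f c)) = fun c => (T c) (((T c) ^ n) (f c)) := by
      funext c
      rw [pow_succ']
      rfl
    rw [h1]
    exact GAna_app hT ih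

/-- The traces are analytic.  Proof: as `analyticAt_trc` in Ana.lean (copy the proof), with
`F1(c) = P (R c) (Θ (Ring.inverse (A c)) (R c))` (components `S(c) s_m`),
`F(c) = (P (S c)) ^ (a - 1) (F1 c)` (components `S(c)^a s_m`), `trc = <F c, F c>`. -/
theorem analyticAt_trG {ι : Type*} {io : H →L[ℝ] L} {s : ι → L} {k : ι → H} {l : ι → ℝ}
    (hE : Emb io s k l) {A : E → H →L[ℝ] H} {R : E → L →L[ℝ] L} {c₀ : E}
    (hA : AnalyticAt ℝ A c₀) (hR : AnalyticAt ℝ R c₀) (hU : IsUnit (A c₀)) {a : ℕ}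
    (ha : 1 ≤ a) : AnalyticAt ℝ (fun c => trc s (SS io (A c) (R c)) a) c₀ := by
  classical
  obtain ⟨Θ, hΘ⟩ := exists_theta2 hE
  obtain ⟨P, hP⟩ := exists_post ι L
  obtain ⟨X, hXd⟩ : ∃ X : E → H →L[ℝ] H, X = fun c => Ring.inverse (A c) := ⟨_, rfl⟩
  obtain ⟨S, hSd⟩ : ∃ S : E → L →L[ℝ] L, S = fun c => SS io (A c) (R c) := ⟨_, rfl⟩
  have hX : AnalyticAt ℝ X c₀ := by
    rw [hXd]
    exact analyticAt_inv hA hU
  have hS : AnalyticAt ℝ S c₀ := by
    rw [hSd]
    exact analyticAt_SSG io hA hR hU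
  obtain ⟨F1, hF1d⟩ : ∃ F1 : E → lp (fun _ : ι => L) 2,
      F1 = fun c => P (R c) (Θ (X c) (R c)) := ⟨_, rfl⟩
  have hPR : AnalyticAt ℝ (fun c => P (R c)) c₀ := by
    have h1 := GAna_clm (V := L →L[ℝ] L)
      (W := lp (fun _ : ι => L) 2 →L[ℝ] lp (fun _ : ι => L) 2) P hR
    exact h1
  have hTX : AnalyticAt ℝ (fun c => Θ (X c)) c₀ := by
    have h1 := GAna_clm (V := H →L[ℝ] H)
      (W := (L →L[ℝ] L) →L[ℝ] lp (fun _ : ι => L) 2) Θ hX
    exact h1
  have hF1a : AnalyticAt ℝ F1 c₀ := by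
    rw [hF1d]
    exact GAna_app hPR (GAna_app hTX hR)
  have hPS : AnalyticAt ℝ (fun c => P (S c)) c₀ := by
    have h1 := GAna_clm (V := L →L[ℝ] L)
      (W := lp (fun _ : ι => L) 2 →L[ℝ] lp (fun _ : ι => L) 2) P hS
    exact h1
  have hFa : AnalyticAt ℝ (fun c => ((P (S c)) ^ (a - 1)) (F1 c)) c₀ :=
    GAna_pow hPS hF1a (a - 1)
  have hF1 : ∀ c m, (F1 c : ι → L) m = S c (s m) := by
    intro c m
    rw [hF1d, hSd]
    show (P (R c) (Θ (X c) (R c)) : ι → L) m = R c (io (Ring.inverse (A c)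
      (ContinuousLinearMap.adjoint io (R c (s m)))))
    rw [hP, hΘ, hXd]
  have hpow : ∀ (Z : L →L[ℝ] L) (n : ℕ) (f : lp (fun _ : ι => L) 2) (m : ι),
      (((P Z) ^ n) f : ι → L) m = (Z ^ n) (f m) := by
    intro Z n
    induction n with
    | zero => intro f m; simp
    | succ n ih =>
      intro f m
      rw [pow_succ, pow_succ]
      show (((P Z) ^ n) (P Z f) : ι → L) m = (Z ^ n) (Z (f m))
      rw [ih, hP]
  have htr : (fun c => trc s (SS io (A c) (R c)) a) = fun c =>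
      ⟪((P (S c)) ^ (a - 1)) (F1 c), ((P (S c)) ^ (a - 1)) (F1 c)⟫_ℝ := by
    funext c
    rw [lp.inner_eq_tsum]
    show ∑' m, ‖((SS io (A c) (R c)) ^ a) (s m)‖ ^ 2 = _
    refine tsum_congr fun m => ?_
    have hSc : SS io (A c) (R c) = S c := by rw [hSd]
    have h2 : (S c ^ (a - 1)) (S c (s m)) = (S c ^ a) (s m) := by
      have h3 : S c ^ a = S c ^ (a - 1) * S c := by
        rw [← pow_succ, Nat.sub_add_cancel ha]
      rw [h3]
      rfl
    rw [hpow, hF1, h2, real_inner_self_eq_norm_sq, hSc]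
  rw [htr]
  exact (ContinuousLinearMap.analyticAt_bilinear (innerSL ℝ) (_, _)).comp₂ hFa hFa

end Pool.Agent.MP4eed4eP.PA
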