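import Pool.Agent.Lib.MP_4eed4e_an_PA.Str

/-!
# Project P, block A: the derivative of `S` in terms of forms, general `R`
-/

open scoped InnerProductSpace

namespace Pool.Agent.MP4eed4eP.PA

variable {H L : Type*} [NormedAddCommGroup H] [InnerProductSpace ℝ H] [CompleteSpace H]
  [NormedAddCommGroup L] [InnerProductSpace ℝ L] [CompleteSpace L]
  {E : Type*} [NormedAddCommGroup E] [NormedSpace ℝ E]

omit [CompleteSpace L] in
/-- The derivative of the inverse. -/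
private theorem GDsf_inv {A : E → H →L[ℝ] H} {c₀ : E} (hA : DifferentiableAt ℝ A c₀)
    (hu : IsUnit (A c₀)) (w : E) :
    ∃ I' : E →L[ℝ] (H →L[ℝ] H), HasFDerivAt (fun c => Ring.inverse (A c)) I' c₀ ∧
      I' w = -(Ring.inverse (A c₀) * fderiv ℝ A c₀ w * Ring.inverse (A c₀)) := by
  obtain ⟨x, hx⟩ := hu
  have h1 := hasFDerivAt_ringInverse (𝕜 := ℝ) x
  rw [hx] at h1
  refine ⟨_, h1.comp c₀ hA.hasFDerivAt, ?_⟩
  rw [← hx, Ring.inverse_unit]
  simp [ContinuousLinearMap.mulLeftRight_apply]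

/-- The derivative of `S` applied to a vector. -/
private theorem GDsf_SS (io : H →L[ℝ] L) {A : E → H →L[ℝ] H} {R : E → L →L[ℝ] L} {c₀ : E}
    (hA : DifferentiableAt ℝ A c₀) (hR : DifferentiableAt ℝ R c₀) (hu : IsUnit (A c₀))
    (w : E) (v : L) :
    fderiv ℝ (fun c => SS io (A c) (R c)) c₀ w v =
      fderiv ℝ R c₀ w (io (Ring.inverse (A c₀) (ContinuousLinearMap.adjoint io (R c₀ v))))
      - R c₀ (io (Ring.inverse (A c₀) (fderiv ℝ A c₀ w (Ring.inverse (A c₀)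
        (ContinuousLinearMap.adjoint io (R c₀ v))))))
      + R c₀ (io (Ring.inverse (A c₀) (ContinuousLinearMap.adjoint io (fderiv ℝ R c₀ w v)))) := by
  obtain ⟨I', h1, h2⟩ := GDsf_inv hA hu w
  have h3 := hR.hasFDerivAt
  have h4 := (hasFDerivAt_const (ContinuousLinearMap.adjoint io) c₀).clm_comp h3
  have h5 := h1.clm_comp h4
  have h6 := (hasFDerivAt_const io c₀).clm_comp h5
  have h7 := h3.clm_comp h6
  have h8 : (fun c => SS io (A c) (R c)) = fun c => (R c).comp (io.comp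
      ((Ring.inverse (A c)).comp ((ContinuousLinearMap.adjoint io).comp (R c)))) := rfl
  rw [h8, h7.fderiv]
  simp [h2]
  abel

/-- The derivative of `S(c) = R io A⁻¹ io* R` in the direction `w` applied to `v = R io g`, where
`A g = m⁻¹ io* R R io g`, in terms of forms; general `R(c)`.
Proof (as `inner_fderiv_SS` in Dsf.lean, copy the proof): with dots for the derivatives in the
direction `w` at `c₀`, `Ṡ v = Ṙ io A⁻¹ io* R v - R io A⁻¹ Ȧ A⁻¹ io* R v + R io A⁻¹ io* Ṙ v`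
and `A⁻¹ io* R v = m g`.  `R = R c₀` and `A⁻¹` are symmetric, so
`<v, Ṡ v> = m <R io g, Ṙ io g> - m^2 <g, Ȧ g> + m <io g, Ṙ R io g>`, and the derivative of
`R ∘L R` is `Ṙ R + R Ṙ`:
`<(Ṙ R + R Ṙ) io g, io g> = <Ṙ R io g, io g> + <Ṙ io g, R io g>`. -/
theorem inner_fderiv_SSG (io : H →L[ℝ] L) {A : E → H →L[ℝ] H} {R : E → L →L[ℝ] L} {c₀ : E}
    (hA : DifferentiableAt ℝ A c₀) (hR : DifferentiableAt ℝ R c₀)
    (hco : Coer (A c₀)) (hRs : ∀ f g, ⟪R c₀ f, g⟫_ℝ = ⟪f, R c₀ g⟫_ℝ) {g : H} {m : ℝ}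
    (hm : m ≠ 0)
    (hg : A c₀ g = m⁻¹ • ContinuousLinearMap.adjoint io (R c₀ (R c₀ (io g)))) (w : E) :
    ⟪R c₀ (io g), fderiv ℝ (fun c => SS io (A c) (R c)) c₀ w (R c₀ (io g))⟫_ℝ =
    m * ⟪fderiv ℝ (fun c => R c ∘L R c) c₀ w (io g), io g⟫_ℝ
      - m ^ 2 * ⟪fderiv ℝ A c₀ w g, g⟫_ℝ := by
  have hS := GDsf_SS io hA hR hco.isUnit w (R c₀ (io g))
  rw [hS]
  have h1 : ContinuousLinearMap.adjoint io (R c₀ (R c₀ (io g))) = m • A c₀ g := by
    rw [hg, smul_smul, mul_inv_cancel₀ hm, one_smul]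
  have h2 : Ring.inverse (A c₀) (ContinuousLinearMap.adjoint io (R c₀ (R c₀ (io g)))) =
      m • g := by
    rw [h1, map_smul, (hco.inv_apply g).1]
  rw [h2, inner_add_right, inner_sub_right]
  have h3 : ⟪R c₀ (io g), fderiv ℝ R c₀ w (io (m • g))⟫_ℝ =
      m * ⟪R c₀ (fderiv ℝ R c₀ w (io g)), io g⟫_ℝ := by
    rw [map_smul, map_smul, real_inner_smul_right, hRs, real_inner_comm]
  have hfl : ∀ (x : H) (y : L), ⟪y, R c₀ (io x)⟫_ℝ =
      ⟪ContinuousLinearMap.adjoint io (R c₀ y), x⟫_ℝ := by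
    intro x y
    rw [ContinuousLinearMap.adjoint_inner_left, hRs]
  have h4 : ⟪R c₀ (io g), R c₀ (io (Ring.inverse (A c₀) (fderiv ℝ A c₀ w (m • g))))⟫_ℝ =
        m ^ 2 * ⟪fderiv ℝ A c₀ w g, g⟫_ℝ := by
    rw [hfl, ← hco.inv_sym, h2, map_smul, real_inner_smul_left, real_inner_smul_right,
      real_inner_comm]
    ring
  have h5 : ⟪R c₀ (io g), R c₀ (io (Ring.inverse (A c₀) (ContinuousLinearMap.adjoint io
      (fderiv ℝ R c₀ w (R c₀ (io g))))))⟫_ℝ =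
        m * ⟪fderiv ℝ R c₀ w (R c₀ (io g)), io g⟫_ℝ := by
    rw [hfl, ← hco.inv_sym, h2, real_inner_smul_left, ContinuousLinearMap.adjoint_inner_right,
      real_inner_comm]
  rw [h3, h4, h5]
  have h6 : fderiv ℝ (fun c => R c ∘L R c) c₀ w (io g) =
      R c₀ (fderiv ℝ R c₀ w (io g)) + fderiv ℝ R c₀ w (R c₀ (io g)) := by
    rw [(hR.hasFDerivAt.clm_comp hR.hasFDerivAt).fderiv]
    simp
  rw [h6, inner_add_left]
  ring

end Pool.Agent.MP4eed4eP.PA
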