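import Pool.Agent.Lib.MP_4eed4e_an_PA.Coe

/-!
# Project P, block A: min-max (A7), lower bound
-/

open scoped InnerProductSpace

namespace Pool.Agent.MP4eed4eP.PA

variable {H L : Type*} [NormedAddCommGroup H] [InnerProductSpace ℝ H] [CompleteSpace H]
  [NormedAddCommGroup L] [InnerProductSpace ℝ L] [CompleteSpace L]

/-- The vectors `g_k = mu_k⁻¹ A⁻¹ io* R v_k`.
Proof: `R io g_k = mu_k⁻¹ S v_k = v_k`;
`<A g_k, w> = mu_k⁻¹ <io* R v_k, w> = mu_k⁻¹ <v_k, R io w>`. -/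
theorem exists_g {io : H →L[ℝ] L} {A : H →L[ℝ] H} (hA : Coer A) {R : L →L[ℝ] L}
    (hR : ∀ f g, ⟪R f, g⟫_ℝ = ⟪f, R g⟫_ℝ) {κ : Type*} {v : κ → L} {mu : κ → ℝ}
    (hE : Eig (SS io A R) v mu) :
    ∃ g : κ → H, (∀ k, R (io (g k)) = v k) ∧
      ∀ k w, ⟪A (g k), w⟫_ℝ = (mu k)⁻¹ * ⟪v k, R (io w)⟫_ℝ := by
  refine ⟨fun k => (mu k)⁻¹ • Ring.inverse A (ContinuousLinearMap.adjoint io (R (v k))), ?_, ?_⟩
  · intro k
    have h1 : R (io (Ring.inverse A (ContinuousLinearMap.adjoint io (R (v k))))) =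
        mu k • v k := hE.eig k
    have h2 : mu k ≠ 0 := (hE.pos k).ne'
    rw [map_smul, map_smul, h1, smul_smul, inv_mul_cancel₀ h2, one_smul]
  · intro k w
    rw [map_smul, (hA.inv_apply _).2, real_inner_smul_left,
      ContinuousLinearMap.adjoint_inner_left, hR]

/-- Bessel inequality for the form of `A`:
`sum_{k in t} mu_k⁻¹ <v_k, R io w>^2 <= <A w, w>`.
Proof: with `g` as in `exists_g`, `x_k = <v_k, R io w>`, `z = w - sum_{k in t} x_k g_k`: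
`0 <= <A z, z> = <A w, w> - 2 sum x_k <A g_k, w> + sum_j sum_k x_j x_k <A g_j, g_k>`,
`<A g_k, w> = mu_k⁻¹ x_k`, `<A g_j, g_k> = mu_j⁻¹ <v_j, v_k>` (orthonormal), so the right side
is `<A w, w> - sum mu_k⁻¹ x_k^2`. -/
theorem bessel_A {io : H →L[ℝ] L} {A : H →L[ℝ] H} (hA : Coer A) {R : L →L[ℝ] L}
    (hR : ∀ f g, ⟪R f, g⟫_ℝ = ⟪f, R g⟫_ℝ) {κ : Type*} {v : κ → L} {mu : κ → ℝ}
    (hE : Eig (SS io A R) v mu) (t : Finset κ) (w : H) :
    ∑ k ∈ t, (mu k)⁻¹ * ⟪v k, R (io w)⟫_ℝ ^ 2 ≤ ⟪A w, w⟫_ℝ := by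
  obtain ⟨g, hg1, hg2⟩ := exists_g hA hR hE
  set x : κ → ℝ := fun k => ⟪v k, R (io w)⟫_ℝ with hx
  set u : H := ∑ k ∈ t, x k • g k with hu
  have hAu : ∀ y : H, ⟪A u, y⟫_ℝ = ∑ k ∈ t, x k * ((mu k)⁻¹ * ⟪v k, R (io y)⟫_ℝ) := by
    intro y
    rw [hu, map_sum, sum_inner]
    refine Finset.sum_congr rfl fun k _ => ?_
    rw [map_smul, real_inner_smul_left, hg2 k y]
  have hRu : R (io u) = ∑ j ∈ t, x j • v j := by
    rw [hu, map_sum, map_sum]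
    refine Finset.sum_congr rfl fun k _ => ?_
    rw [map_smul, map_smul, hg1 k]
  have hvu : ∀ k ∈ t, ⟪v k, R (io u)⟫_ℝ = x k := by
    intro k hk
    rw [hRu]
    exact hE.on.inner_right_sum x hk
  have h1 : ⟪A u, w⟫_ℝ = ∑ k ∈ t, (mu k)⁻¹ * ⟪v k, R (io w)⟫_ℝ ^ 2 := by
    rw [hAu w]
    refine Finset.sum_congr rfl fun k _ => ?_
    simp only [hx]
    ring
  have h2 : ⟪A u, u⟫_ℝ = ∑ k ∈ t, (mu k)⁻¹ * ⟪v k, R (io w)⟫_ℝ ^ 2 := by
    rw [hAu u]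
    refine Finset.sum_congr rfl fun k hk => ?_
    rw [hvu k hk]
    simp only [hx]
    ring
  have h3 : ⟪A w, u⟫_ℝ = ⟪A u, w⟫_ℝ := by
    rw [hA.sym w u, real_inner_comm]
  have h4 : 0 ≤ ⟪A (w - u), w - u⟫_ℝ := by
    obtain ⟨c, hc, hcoer⟩ := hA.coer
    exact le_trans (by positivity) (hcoer (w - u))
  have h5 : ⟪A (w - u), w - u⟫_ℝ =
      ⟪A w, w⟫_ℝ - ⟪A w, u⟫_ℝ - (⟪A u, w⟫_ℝ - ⟪A u, u⟫_ℝ) := by
    rw [map_sub, inner_sub_left, inner_sub_right, inner_sub_right]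
  rw [h5, h3, h2, h1] at h4
  linarith

/-- Lower bound.
Proof.  The linear map `V → (Fin n → ℝ)`, `w ↦ (<v_j, R io w>)_{j < n}` has a nonzero vector
`w` in its kernel (`finrank V = n + 1`; `LinearMap.exists_ne_zero...`/
`LinearMap.ker_ne_bot_of_finrank_lt`).  `v` is a Parseval frame (`pars_of_cpl`), so
`|R io w|^2 = sum_j <v_j, R io w>^2 <= mu_n sum_j mu_j⁻¹ <v_j, R io w>^2 <= mu_n <A w, w>`:
the terms with `j < n` vanish, for `j >= n` `mu_j <= mu_n`, i.e. `1 <= mu_n mu_j⁻¹` (antitone),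
and `bessel_A` bounds all finite sums (`hasSum_le_of_sum_le` / `tsum` version).
So `<A w, w> <= r |R io w|^2 <= r mu_n <A w, w>`?  (if `r < 0` then `<A w, w> <= 0`, impossible),
`<A w, w> > 0` (coercive, `w /= 0`), so `1 <= r mu_n`. -/
theorem mm_lower {io : H →L[ℝ] L} {A : H →L[ℝ] H} (hA : Coer A) {R : L →L[ℝ] L}
    (hR : ∀ f g, ⟪R f, g⟫_ℝ = ⟪f, R g⟫_ℝ) {v : ℕ → L} {mu : ℕ → ℝ}
    (hE : Eig (SS io A R) v mu) (hmu : Antitone mu) {n : ℕ} {V : Submodule ℝ H}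
    (hV : Module.finrank ℝ V = n + 1) {r : ℝ}
    (h : ∀ w ∈ V, ⟪A w, w⟫_ℝ ≤ r * ‖R (io w)‖ ^ 2) : (mu n)⁻¹ ≤ r := by
  haveI : FiniteDimensional ℝ V := FiniteDimensional.of_finrank_pos (by omega)
  let Φ : V →ₗ[ℝ] (Fin n → ℝ) :=
    LinearMap.pi fun j => ((innerSL ℝ (v j)) ∘L R ∘L io).toLinearMap ∘ₗ V.subtype
  have hker : ∃ w : V, w ≠ 0 ∧ Φ w = 0 := by
    by_contra hcon
    push Not at hcon
    have hinj : Function.Injective Φ := by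
      rw [injective_iff_map_eq_zero]
      intro a ha
      by_contra h0
      exact hcon a h0 ha
    have h1 := LinearMap.finrank_le_finrank_of_injective hinj
    rw [hV, Module.finrank_fin_fun] at h1
    omega
  obtain ⟨w, hw0, hΦ⟩ := hker
  have hx0 : ∀ j, j < n → ⟪v j, R (io (w : H))⟫_ℝ = 0 := by
    intro j hj
    have := congrFun hΦ ⟨j, hj⟩
    simpa [Φ] using this
  have hw0' : (w : H) ≠ 0 := fun h0 => hw0 (Subtype.ext h0)
  have hP := (pars_of_cpl hE.on hE.cpl (R (io (w : H)))).mul_left (mu n)⁻¹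
  have hle : (mu n)⁻¹ * ‖R (io (w : H))‖ ^ 2 ≤ ⟪A (w : H), (w : H)⟫_ℝ := by
    refine hasSum_le_of_sum_le hP fun t => ?_
    refine le_trans (Finset.sum_le_sum fun k _ => ?_) (bessel_A hA hR hE t (w : H))
    by_cases hk : k < n
    · rw [hx0 k hk]
      simp
    · exact mul_le_mul_of_nonneg_right
        (inv_anti₀ (hE.pos k) (hmu (not_lt.mp hk))) (sq_nonneg _)
  have hub := h (w : H) w.2
  have hpos : 0 < ⟪A (w : H), (w : H)⟫_ℝ := by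
    obtain ⟨c, hc, hcoer⟩ := hA.coer
    have h1 : 0 < ‖(w : H)‖ := norm_pos_iff.mpr hw0'
    exact lt_of_lt_of_le (by positivity) (hcoer (w : H))
  have hN : 0 < ‖R (io (w : H))‖ ^ 2 := by
    rcases (sq_nonneg ‖R (io (w : H))‖).lt_or_eq with h1 | h1
    · exact h1
    · rw [← h1, mul_zero] at hub
      linarith
  exact le_of_mul_le_mul_right (hle.trans hub) hN

end Pool.Agent.MP4eed4eP.PA
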