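import Pool.Agent.Lib.MP_4eed4e_an_PA.Df

/-!
# Project P, block A: the moment inequality
-/

open scoped InnerProductSpace

namespace Pool.Agent.MP4eed4eP.PA

variable {L : Type*} [NormedAddCommGroup L] [InnerProductSpace ℝ L]

private theorem mom_sym {S : L →L[ℝ] L} (hS : Nng S) (i : ℕ) (f g : L) :
    ⟪(S ^ i) f, g⟫_ℝ = ⟪f, (S ^ i) g⟫_ℝ := by
  induction i generalizing f g with
  | zero => simp
  | succ i ih =>
    have h1 : (S ^ (i + 1)) f = (S ^ i) (S f) := by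
      rw [pow_succ]
      rfl
    have h2 : (S ^ (i + 1)) g = S ((S ^ i) g) := by
      rw [pow_succ']
      rfl
    rw [h1, h2, ih, hS.sym]

private theorem mom_cs {S : L →L[ℝ] L} (hS : Nng S) (x y : L) :
    ⟪S x, y⟫_ℝ ^ 2 ≤ ⟪S x, x⟫_ℝ * ⟪S y, y⟫_ℝ := by
  have h1 : ∀ t : ℝ, 0 ≤ ⟪S y, y⟫_ℝ * (t * t) + (2 * ⟪S x, y⟫_ℝ) * t + ⟪S x, x⟫_ℝ := by
    intro t
    have h2 := hS.nng (x + t • y)
    have h3 : ⟪S (x + t • y), x + t • y⟫_ℝ =
        ⟪S y, y⟫_ℝ * (t * t) + (2 * ⟪S x, y⟫_ℝ) * t + ⟪S x, x⟫_ℝ := by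
      rw [map_add, map_smul, inner_add_left, inner_add_right, inner_add_right,
        real_inner_smul_left, real_inner_smul_left, real_inner_smul_right,
        real_inner_smul_right]
      have h4 : ⟪S y, x⟫_ℝ = ⟪S x, y⟫_ℝ := by
        rw [hS.sym, real_inner_comm]
      rw [h4]
      ring
    rw [← h3]
    exact h2
  have h5 := discrim_le_zero h1
  rw [discrim] at h5
  nlinarith

/-- Moment inequality: `<S v, v>^(2a) <= |S^a v|^2` for a unit vector `v`, `S` symmetric and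
nonnegative.
Proof.  Let `m_j = <S^j v, v>`, `m_0 = 1`.  `m_j >= 0`: `m_{2i} = |S^i v|^2`,
`m_{2i+1} = <S (S^i v), S^i v>`.  `m_j^2 <= m_{j-1} m_{j+1}` for `j >= 1`: for `j = 2i + 1`,
`m_j = <S^(i+1) v, S^i v>` and Cauchy-Schwarz; for `j = 2i`, `m_j = <S S^(i-1) v, S^i v>` and
Cauchy-Schwarz for the nonnegative form `<S x, y>` (discriminant: `0 <= <S (x + t y), x + t y>` for
all real `t`, `discrim_le_zero`).  If `m_1 = 0` the claim is `0 <= ..` (for `a >= 1`; for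
`a = 0` both sides are `1`).  If `m_1 > 0` then by induction `m_j > 0` and
`m_1 m_j <= m_{j+1}`: for `j = 0` equality, and `m_1 m_j^2 <= m_1 m_{j-1} m_{j+1} <= m_j m_{j+1}`,
divide by `m_j`.  So `m_1^n <= m_n` for all `n`, in particular for `n = 2a`, and
`m_{2a} = <S^(2a) v, v> = |S^a v|^2`. -/
theorem Nng.moment {S : L →L[ℝ] L} (hS : Nng S) {v : L} (hv : ‖v‖ = 1) (a : ℕ) :
    ⟪S v, v⟫_ℝ ^ (2 * a) ≤ ‖(S ^ a) v‖ ^ 2 := by
  set m : ℕ → ℝ := fun j => ⟪(S ^ j) v, v⟫_ℝ with hm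
  have hij : ∀ i j, m (i + j) = ⟪(S ^ i) v, (S ^ j) v⟫_ℝ := by
    intro i j
    have h1 : (S ^ (i + j)) v = (S ^ j) ((S ^ i) v) := by
      rw [add_comm, pow_add]
      rfl
    change ⟪(S ^ (i + j)) v, v⟫_ℝ = _
    rw [h1, mom_sym hS]
  have hev : ∀ i, m (i + i) = ‖(S ^ i) v‖ ^ 2 := by
    intro i
    rw [hij, real_inner_self_eq_norm_sq]
  have hsucc : ∀ i, (S ^ (i + 1)) v = S ((S ^ i) v) := by
    intro i
    rw [pow_succ']
    rfl
  have hlc : ∀ j, m (j + 1) ^ 2 ≤ m j * m (j + 2) := by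
    intro j
    rcases Nat.even_or_odd' j with ⟨i, rfl | rfl⟩
    · have h1 : m (2 * i + 1) = ⟪(S ^ (i + 1)) v, (S ^ i) v⟫_ℝ := by
        rw [← hij]
        congr 1
        ring
      have h2 : m (2 * i) = ‖(S ^ i) v‖ ^ 2 := by
        rw [two_mul, hev]
      have h3 : m (2 * i + 2) = ‖(S ^ (i + 1)) v‖ ^ 2 := by
        rw [← hev]
        congr 1
        ring
      rw [h1, h2, h3]
      have h4 := abs_real_inner_le_norm ((S ^ (i + 1)) v) ((S ^ i) v)
      have h5 := pow_le_pow_left₀ (abs_nonneg _) h4 2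
      rw [sq_abs] at h5
      calc _ ≤ _ := h5
        _ = _ := by ring
    · have h1 : m (2 * i + 1 + 1) = ⟪S ((S ^ i) v), (S ^ (i + 1)) v⟫_ℝ := by
        rw [← hsucc, ← hij]
        congr 1
        ring
      have h2 : m (2 * i + 1) = ⟪S ((S ^ i) v), (S ^ i) v⟫_ℝ := by
        rw [← hsucc, ← hij]
        congr 1
        ring
      have h3 : m (2 * i + 1 + 2) = ⟪S ((S ^ (i + 1)) v), (S ^ (i + 1)) v⟫_ℝ := by
        rw [← hsucc, ← hij]
        congr 1
        ring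
      rw [h1, h2, h3]
      exact mom_cs hS _ _
  have hm1 : m 1 = ⟪S v, v⟫_ℝ := by
    change ⟪(S ^ 1) v, v⟫_ℝ = _
    rw [pow_one]
  have hm0 : m 0 = 1 := by
    change ⟪(S ^ 0) v, v⟫_ℝ = _
    rw [pow_zero]
    change ⟪v, v⟫_ℝ = _
    rw [real_inner_self_eq_norm_sq, hv]
    norm_num
  have hpos0 : 0 ≤ m 1 := by
    rw [hm1]
    exact hS.nng v
  rw [← hm1, ← hev]
  rcases hpos0.eq_or_lt with h0 | h0
  · rw [← h0]
    rcases Nat.eq_zero_or_pos a with rfl | ha
    · rw [mul_zero, pow_zero, hm0]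
    · rw [zero_pow (by omega), hev]
      positivity
  · have key : ∀ n, 0 < m n ∧ m 1 * m n ≤ m (n + 1) := by
      intro n
      induction n with
      | zero => exact ⟨by rw [hm0]; exact one_pos, by rw [hm0, mul_one]⟩
      | succ n ih =>
        have h1 : 0 < m (n + 1) := (mul_pos h0 ih.1).trans_le ih.2
        refine ⟨h1, ?_⟩
        have h2 := hlc n
        have h3 : m 1 * m (n + 1) ^ 2 ≤ m (n + 1) * m (n + 2) := by
          have h5 : 0 ≤ m (n + 2) := by
            by_contra hcon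
            push Not at hcon
            have h6 : m n * m (n + 2) < 0 := mul_neg_of_pos_of_neg ih.1 hcon
            nlinarith [sq_nonneg (m (n + 1))]
          calc m 1 * m (n + 1) ^ 2 ≤ m 1 * (m n * m (n + 2)) :=
                mul_le_mul_of_nonneg_left h2 hpos0
            _ = (m 1 * m n) * m (n + 2) := by ring
            _ ≤ m (n + 1) * m (n + 2) := mul_le_mul_of_nonneg_right ih.2 h5
        have h4 : m (n + 1) * (m 1 * m (n + 1)) ≤ m (n + 1) * m (n + 2) := by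
          calc m (n + 1) * (m 1 * m (n + 1)) = m 1 * m (n + 1) ^ 2 := by ring
            _ ≤ _ := h3
        exact le_of_mul_le_mul_left h4 h1
    have hfin : ∀ n, m 1 ^ n ≤ m n := by
      intro n
      induction n with
      | zero => rw [pow_zero, hm0]
      | succ n ih =>
        calc m 1 ^ (n + 1) = m 1 * m 1 ^ n := by ring
          _ ≤ m 1 * m n := mul_le_mul_of_nonneg_left ih hpos0
          _ ≤ _ := (key n).2
    have h7 := hfin (2 * a)
    rwa [two_mul] at h7 ⊢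

end Pool.Agent.MP4eed4eP.PA
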