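import Pool.Agent.Lib.MP_4eed4e_an_PA.Coe

/-!
# Project P, block A: strong and weak eigenvalue equation, derivative of `R`
-/

open scoped InnerProductSpace

namespace Pool.Agent.MP4eed4eP.PA

variable {H L : Type*} [NormedAddCommGroup H] [InnerProductSpace ℝ H] [CompleteSpace H]
  [NormedAddCommGroup L] [InnerProductSpace ℝ L] [CompleteSpace L]
  {E : Type*} [NormedAddCommGroup E] [NormedSpace ℝ E]

/-- The weak eigenvalue equation on a dense subspace gives the strong one.
Proof: both sides of `<A g, h> = <mu⁻¹ io* R R io g, h>` are continuous in `h`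
(`real_inner_smul_left`, `ContinuousLinearMap.adjoint_inner_left`, symmetry of `R`), so the
equation holds for all `h` (`Dense`, `Continuous.ext_on`), and `ext_inner_right ℝ`. -/
theorem strong_of_weak {io : H →L[ℝ] L} {A : H →L[ℝ] H} {R : L →L[ℝ] L}
    (hR : ∀ f g, ⟪R f, g⟫_ℝ = ⟪f, R g⟫_ℝ) {D0 : Submodule ℝ H} (hD : Dense (D0 : Set H))
    {g : H} {m : ℝ} (h : ∀ h ∈ D0, ⟪A g, h⟫_ℝ = m⁻¹ * ⟪R (io g), R (io h)⟫_ℝ) :
    A g = m⁻¹ • ContinuousLinearMap.adjoint io (R (R (io g))) := by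
  refine ext_inner_right ℝ fun y => ?_
  have h1 : Set.EqOn (fun y => ⟪A g, y⟫_ℝ)
      (fun y => ⟪m⁻¹ • ContinuousLinearMap.adjoint io (R (R (io g))), y⟫_ℝ) (D0 : Set H) := by
    intro y hy
    show ⟪A g, y⟫_ℝ = ⟪m⁻¹ • ContinuousLinearMap.adjoint io (R (R (io g))), y⟫_ℝ
    rw [h y hy, real_inner_smul_left, ContinuousLinearMap.adjoint_inner_left,
      hR (R (io g)) (io y)]
  exact congrFun (Continuous.ext_on hD (by fun_prop) (by fun_prop) h1) y

/-- The strong equation gives eigenvectors of `S`: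
`S v = R io A⁻¹ io* R (R io g) = R io A⁻¹ (m A g) = m R io g`. -/
theorem eig_of_strong {io : H →L[ℝ] L} {A : H →L[ℝ] H} (hA : Coer A) {R : L →L[ℝ] L}
    {g : H} {m : ℝ} (hm : m ≠ 0)
    (hg : A g = m⁻¹ • ContinuousLinearMap.adjoint io (R (R (io g)))) :
    SS io A R (R (io g)) = m • R (io g) := by
  have h1 : ContinuousLinearMap.adjoint io (R (R (io g))) = m • A g := by
    rw [hg, smul_smul, mul_inv_cancel₀ hm, one_smul]
  show R (io (Ring.inverse A (ContinuousLinearMap.adjoint io (R (R (io g)))))) = _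
  rw [h1, map_smul, (hA.inv_apply g).1, map_smul, map_smul]

omit [CompleteSpace L] in
/-- `c ↦ R(c)` is differentiable with derivative `sum_j (D_w rho_j) chi_j`. -/
theorem hasFDerivAt_RR {J : Type*} [Fintype J] (chi : J → L →L[ℝ] L) {rho : J → E → ℝ} {c₀ : E}
    (hrho : ∀ j, DifferentiableAt ℝ (rho j) c₀) (w : E) :
    DifferentiableAt ℝ (fun c => RR chi (fun j => rho j c)) c₀ ∧
      fderiv ℝ (fun c => RR chi (fun j => rho j c)) c₀ w =
        RR chi (fun j => fderiv ℝ (rho j) c₀ w) := by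
  have h : HasFDerivAt (fun c => RR chi (fun j => rho j c))
      (∑ j, (fderiv ℝ (rho j) c₀).smulRight (chi j)) c₀ := by
    unfold RR
    exact HasFDerivAt.fun_sum fun j _ => (hrho j).hasFDerivAt.smul_const (chi j)
  refine ⟨h.differentiableAt, ?_⟩
  rw [h.fderiv]
  unfold RR
  simp

end Pool.Agent.MP4eed4eP.PA
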