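import Pool.Agent.Lib.MP_4eed4e_an_PA.Tra
import Pool.Agent.Lib.MP_4eed4e_an_PA.Mom

/-!
# Project P, block A: the tangent inequality for the traces (A6)
-/

open scoped InnerProductSpace

namespace Pool.Agent.MP4eed4eP.PA

variable {L : Type*} [NormedAddCommGroup L] [InnerProductSpace ℝ L] [CompleteSpace L]

/-- The bounded linear functional `tau Y = sum_k w_k <v_k, Y v_k>` for a summable nonnegative
sequence of weights.
Proof: `|<v_k, Y v_k>| <= |Y|` (unit vectors), so the series converges absolutely and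
`|tau Y| <= (sum w_k) |Y|`; `LinearMap.mkContinuous`. -/
theorem exists_tau {κ : Type*} {v : κ → L} (hv : Orthonormal ℝ v) {w : κ → ℝ}
    (hw0 : ∀ k, 0 ≤ w k) (hw : Summable w) :
    ∃ tau : (L →L[ℝ] L) →L[ℝ] ℝ, ∀ Y, HasSum (fun k => w k * ⟪v k, Y (v k)⟫_ℝ) (tau Y) := by
  have hb : ∀ (Y : L →L[ℝ] L) k, |⟪v k, Y (v k)⟫_ℝ| ≤ ‖Y‖ := by
    intro Y k
    calc |⟪v k, Y (v k)⟫_ℝ| ≤ ‖v k‖ * ‖Y (v k)‖ := abs_real_inner_le_norm _ _
      _ ≤ ‖v k‖ * (‖Y‖ * ‖v k‖) :=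
        mul_le_mul_of_nonneg_left (Y.le_opNorm _) (norm_nonneg _)
      _ = ‖Y‖ := by rw [hv.1 k]; ring
  have hn : ∀ (Y : L →L[ℝ] L) k, ‖w k * ⟪v k, Y (v k)⟫_ℝ‖ ≤ w k * ‖Y‖ := by
    intro Y k
    rw [norm_mul, Real.norm_eq_abs, Real.norm_eq_abs, abs_of_nonneg (hw0 k)]
    exact mul_le_mul_of_nonneg_left (hb Y k) (hw0 k)
  have hs : ∀ Y : L →L[ℝ] L, Summable fun k => w k * ⟪v k, Y (v k)⟫_ℝ := fun Y =>
    Summable.of_norm_bounded (hw.mul_right _) (hn Y)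
  let t : (L →L[ℝ] L) →ₗ[ℝ] ℝ :=
    { toFun := fun Y => ∑' k, w k * ⟪v k, Y (v k)⟫_ℝ
      map_add' := by
        intro Y Z
        rw [← (hs Y).tsum_add (hs Z)]
        refine tsum_congr fun k => ?_
        rw [ContinuousLinearMap.add_apply, inner_add_right]
        ring
      map_smul' := by
        intro c Y
        rw [RingHom.id_apply, smul_eq_mul, ← tsum_mul_left]
        refine tsum_congr fun k => ?_
        rw [ContinuousLinearMap.smul_apply, inner_smul_right]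
        ring }
  refine ⟨t.mkContinuous (∑' k, w k) ?_, fun Y => (hs Y).hasSum⟩
  intro Y
  have h1 : ‖∑' k, w k * ⟪v k, Y (v k)⟫_ℝ‖ ≤ ∑' k, w k * ‖Y‖ :=
    tsum_of_norm_bounded (hw.mul_right _).hasSum (hn Y)
  rw [tsum_mul_right] at h1
  exact h1

/-- Bernoulli form of the tangent of `x ^ n` at `m > 0`. -/
private theorem Tan_bern {x m : ℝ} (hx : 0 ≤ x) (hm : 0 < m) (n : ℕ) (hn : 1 ≤ n) :
    m ^ n + n * (m ^ (n - 1) * (x - m)) ≤ x ^ n := by
  have h1 : (-2 : ℝ) ≤ x / m - 1 := by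
    have := div_nonneg hx hm.le
    linarith
  have h2 := one_add_mul_le_pow h1 n
  have h3 : 1 + (x / m - 1) = x / m := by ring
  rw [h3, div_pow] at h2
  have hmn : 0 < m ^ n := pow_pos hm n
  rw [le_div_iff₀ hmn] at h2
  refine le_trans (le_of_eq ?_) h2
  obtain ⟨b, rfl⟩ : ∃ b, n = b + 1 := ⟨n - 1, by omega⟩
  rw [Nat.add_sub_cancel]
  have hm' : m ≠ 0 := hm.ne'
  field_simp
  ring

/-- The tangent inequality.
Proof.  `tau` as in `exists_tau` with weights `mu_k^(2a-1)` (summable because `mu_k^2` is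
summable (`hasSum_trc`, `a = 1`), `mu_k` is bounded (`mu_k^2 <= sum`), `2a - 1 >= 3`).
`v` is a Parseval frame, so `trc s S' a = sum_k |S'^a v_k|^2` (`hs_frame`, `hs_pow`)
`>= sum_k x_k^(2a)`, `x_k = <v_k, S' v_k> >= 0` (`Nng.moment`, `real_inner_comm`), and
`x^(2a) >= mu^(2a) + 2a mu^(2a-1) (x - mu)` for `x >= 0`, `mu > 0` (Bernoulli,
`one_add_mul_le_pow` for `x / mu - 1 >= -1`).  Here `mu_k = <v_k, S v_k>` and
`sum_k mu_k^(2a) = trc s S a` (`hasSum_trc`), so the sum of the right hand sides is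
`trc s S a + 2a tau (S' - S)`. -/
theorem trc_tangent {ι κ : Type*} {s : ι → L} (hs : Pars s) {S S' : L →L[ℝ] L} {v : κ → L}
    {mu : κ → ℝ} (hE : Eig S v mu) (hS : Summable fun m => ‖S (s m)‖ ^ 2) (hN' : Nng S')
    (hS' : Summable fun m => ‖S' (s m)‖ ^ 2) {a : ℕ} (ha : 2 ≤ a)
    {tau : (L →L[ℝ] L) →L[ℝ] ℝ}
    (htau : ∀ Y, HasSum (fun k => mu k ^ (2 * a - 1) * ⟪v k, Y (v k)⟫_ℝ) (tau Y)) :
    trc s S a + 2 * a * tau (S' - S) ≤ trc s S' a := by
  have hv := pars_of_cpl hE.on hE.cpl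
  have h1 : HasSum (fun k => ‖(S' ^ a) (v k)‖ ^ 2) (trc s S' a) :=
    hs_frame hs hv (S' ^ a) (hs_pow S' hS' (by omega))
  have h2 : HasSum (fun k => mu k ^ (2 * a)) (trc s S a) := hasSum_trc hs hE hS (by omega)
  have h3 := h2.add ((htau (S' - S)).mul_left (2 * (a : ℝ)))
  refine hasSum_le (fun k => ?_) h3 h1
  have h4 := hN'.moment (hE.on.1 k) a
  have h5 : ⟪v k, (S' - S) (v k)⟫_ℝ = ⟪S' (v k), v k⟫_ℝ - mu k := by
    rw [ContinuousLinearMap.sub_apply, inner_sub_right, hE.eig, inner_smul_right,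
      real_inner_self_eq_norm_sq, hE.on.1 k, real_inner_comm]
    ring
  have h6 := Tan_bern (hN'.nng (v k)) (hE.pos k) (2 * a) (by omega)
  refine le_trans ?_ (le_trans h6 h4)
  rw [h5]
  push_cast
  exact le_rfl

end Pool.Agent.MP4eed4eP.PA
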