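import Pool.Agent.Lib.MP_4eed4e_an_PA.Par
import Pool.Agent.Lib.MP_4eed4e_an_PA.Hs

/-!
# Project P, block A: the maps `X ↦ (io X io* B s_m)_m` and `Z ↦ (Z f_m)_m` into `l ^ 2`
-/

open scoped InnerProductSpace

namespace Pool.Agent.MP4eed4eP.PA

variable {H L : Type*} [NormedAddCommGroup H] [InnerProductSpace ℝ H] [CompleteSpace H]
  [NormedAddCommGroup L] [InnerProductSpace ℝ L] [CompleteSpace L]

/-- The bounded linear map `X ↦ (io X io* B s_m)_m` into `l ^ 2 (ι; L)`.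
Proof: by `hs_emb` and `hs_comp_right` (`T = io ∘L X ∘L io*`) the family is square summable with
`sum_m |io X io* B s_m|^2 <= |B|^2 |X|^2 sum l^4`; `memℓp_gen` (exponent `2`,
`ENNReal.toReal 2 = 2`, `Real.rpow_natCast` / `Real.rpow_two`), additivity and homogeneity
componentwise (`lp.ext`), `LinearMap.mkContinuous` with the bound
`|B| sqrt (sum l^4)`: `‖f‖ ^ 2 = sum |f m| ^ 2` in `lp _ 2` (`lp.norm_sq_eq...` or
`lp.norm_rpow_eq_tsum`, or `real_inner_self_eq_norm_sq` with `lp.inner_eq_tsum`). -/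
theorem exists_theta {ι : Type*} {io : H →L[ℝ] L} {s : ι → L} {k : ι → H} {l : ι → ℝ}
    (hE : Emb io s k l) (B : L →L[ℝ] L) :
    ∃ Θ : (H →L[ℝ] H) →L[ℝ] lp (fun _ : ι => L) 2,
      ∀ X m, (Θ X : ι → L) m = io (X (ContinuousLinearMap.adjoint io (B (s m)))) := by
  have h2 : (2 : ENNReal).toReal = 2 := by norm_num
  -- square summability and the bound
  have key : ∀ X : H →L[ℝ] H,
      (Summable fun m => ‖io (X (ContinuousLinearMap.adjoint io (B (s m))))‖ ^ 2) ∧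
        ∑' m, ‖io (X (ContinuousLinearMap.adjoint io (B (s m))))‖ ^ 2 ≤
          ‖B‖ ^ 2 * (‖X‖ ^ 2 * ∑' m, l m ^ 4) := by
    intro X
    obtain ⟨h3, h4⟩ := hs_emb hE X
    obtain ⟨h5, h6⟩ := hs_comp_right hE.pars
      (io ∘L X ∘L ContinuousLinearMap.adjoint io) B h3
    exact ⟨h5, h6.trans (mul_le_mul_of_nonneg_left h4 (sq_nonneg _))⟩
  have hmem : ∀ X : H →L[ℝ] H,
      Memℓp (fun m => io (X (ContinuousLinearMap.adjoint io (B (s m))))) 2 := by
    intro X
    apply memℓp_gen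
    rw [h2]
    simpa only [Real.rpow_two] using (key X).1
  let Θ0 : (H →L[ℝ] H) →ₗ[ℝ] lp (fun _ : ι => L) 2 :=
    { toFun := fun X => ⟨fun m => io (X (ContinuousLinearMap.adjoint io (B (s m)))), hmem X⟩
      map_add' := by
        intro X X'
        apply lp.ext
        funext m
        simp
      map_smul' := by
        intro c X
        apply lp.ext
        funext m
        simp }
  have hΘ0 : ∀ X m, (Θ0 X : ι → L) m = io (X (ContinuousLinearMap.adjoint io (B (s m)))) :=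
    fun _ _ => rfl
  have hl : 0 ≤ ∑' m, l m ^ 4 := tsum_nonneg fun m => by positivity
  refine ⟨Θ0.mkContinuous (‖B‖ * Real.sqrt (∑' m, l m ^ 4)) ?_, hΘ0⟩
  intro X
  have h3 : ‖Θ0 X‖ ^ 2 = ∑' m, ‖io (X (ContinuousLinearMap.adjoint io (B (s m))))‖ ^ 2 := by
    have h4 := lp.norm_rpow_eq_tsum (p := 2) (by rw [h2]; norm_num) (Θ0 X)
    rw [h2] at h4
    simp only [Real.rpow_two] at h4
    exact h4
  have h5 : ‖Θ0 X‖ ^ 2 ≤ (‖B‖ * Real.sqrt (∑' m, l m ^ 4) * ‖X‖) ^ 2 := by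
    rw [h3, mul_pow, mul_pow, Real.sq_sqrt hl]
    refine (key X).2.trans (le_of_eq ?_)
    ring
  exact (pow_le_pow_iff_left₀ (norm_nonneg _) (by positivity) two_ne_zero).1 h5

end Pool.Agent.MP4eed4eP.PA
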