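import Pool.Agent.Lib.MP_4eed4e_an_PA.Par

/-!
# Project P, block A: the trace formula (A4)
-/

open scoped InnerProductSpace

namespace Pool.Agent.MP4eed4eP.PA

variable {L : Type*} [NormedAddCommGroup L] [InnerProductSpace ℝ L] [CompleteSpace L]

/-- A4.  `sum_k mu_k^(2a) = sum_m |S^a s_m|^2` for a complete orthonormal system of eigenvectors.
Proof: `v` is a Parseval frame (`pars_of_cpl`); `hs_frame` for `T = S ^ a` (summable by `hs_pow`)
gives `HasSum (|S^a v_k|^2) (trc s S a)`, and `S^a v_k = mu_k^a v_k`, `|v_k| = 1`,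
`|mu_k^a| ^ 2 = mu_k ^ (2a)`. -/
theorem hasSum_trc {ι κ : Type*} {s : ι → L} (hs : Pars s) {S : L →L[ℝ] L} {v : κ → L}
    {mu : κ → ℝ} (hE : Eig S v mu) (hS : Summable fun m => ‖S (s m)‖ ^ 2) {a : ℕ}
    (ha : 1 ≤ a) : HasSum (fun k => mu k ^ (2 * a)) (trc s S a) := by
  have hv := pars_of_cpl hE.on hE.cpl
  have h1 := hs_frame hs hv (S ^ a) (hs_pow S hS ha)
  have h2 : ∀ k, ‖(S ^ a) (v k)‖ ^ 2 = mu k ^ (2 * a) := by
    intro k
    have h3 : ∀ b : ℕ, (S ^ b) (v k) = mu k ^ b • v k := by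
      intro b
      induction b with
      | zero => simp
      | succ b ih =>
        have h4 : (S ^ (b + 1)) (v k) = (S ^ b) (S (v k)) := by
          rw [pow_succ]
          rfl
        rw [h4, hE.eig, map_smul, ih, smul_smul, pow_succ, mul_comm]
    rw [h3, norm_smul, hE.on.1 k, mul_one, Real.norm_eq_abs, sq_abs, ← pow_mul, mul_comm a 2]
  simp only [h2] at h1
  exact h1

end Pool.Agent.MP4eed4eP.PA
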